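import Pool.Agent.V1185.Beam.Freq

open Finset MeasureTheory intervalIntegral Complex
open scoped ComplexConjugate

namespace Pool.Agent.V1185.Beam

theorem norm_cop {t₁ x₁ : ℝ} {cp cm : ℤ → ℂ} {k : ℤ} (hk : k ≠ 0) :
    ‖cop t₁ x₁ cp cm k‖ = ‖cp k‖ := by
  unfold cop
  rw [if_neg hk, norm_mul, Complex.norm_exp_ofReal_mul_I, mul_one]

theorem norm_com {t₁ x₁ : ℝ} {cm : ℤ → ℂ} {k : ℤ} (hk : k ≠ 0) :
    ‖com t₁ x₁ cm k‖ = ‖cm k‖ := by
  unfold com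
  rw [if_neg hk, norm_mul, Complex.norm_exp_ofReal_mul_I, mul_one]

theorem sum_sq_of_card {K : Finset ℤ} (h : K.card ≤ 1) (u : ℤ → ℂ) :
    ∑ k ∈ K, ‖u k‖ ^ 2 = ‖∑ k ∈ K, u k‖ ^ 2 := by
  rcases Nat.le_one_iff_eq_zero_or_eq_one.1 h with h | h
  · rw [Finset.card_eq_zero] at h
    subst h
    simp
  · rw [Finset.card_eq_one] at h
    obtain ⟨a, rfl⟩ := h
    simp

/-- The weighted identity. -/
theorem weighted {p q : ℤ} (hnd : ¬ q ∣ p) (K : Finset ℤ) (u v : ℤ → ℂ)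
    (h : ∀ n ∈ frs p q K, amp p q K u v n = 0) :
    ∑ k ∈ K, (frp p q k : ℝ) * ‖u k‖ ^ 2 = ∑ k ∈ K, (frm p q k : ℝ) * ‖v k‖ ^ 2 := by
  rw [← Finset.sum_fiberwise_of_maps_to (s := K) (t := frs p q K) (g := frp p q)
      (f := fun k => (frp p q k : ℝ) * ‖u k‖ ^ 2)
      (fun k hk => Finset.mem_union_left _ (Finset.mem_image_of_mem _ hk)),
    ← Finset.sum_fiberwise_of_maps_to (s := K) (t := frs p q K) (g := frm p q)
      (f := fun k => (frm p q k : ℝ) * ‖v k‖ ^ 2)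
      (fun k hk => Finset.mem_union_right _ (Finset.mem_image_of_mem _ hk))]
  apply Finset.sum_congr rfl
  intro n hn
  have h1 : ∑ k ∈ K.filter (fun k => frp p q k = n), (frp p q k : ℝ) * ‖u k‖ ^ 2 =
      n * ∑ k ∈ K.filter (fun k => frp p q k = n), ‖u k‖ ^ 2 := by
    rw [Finset.mul_sum]
    apply Finset.sum_congr rfl
    intro k hk
    rw [Finset.mem_filter] at hk
    rw [hk.2]
  have h2 : ∑ k ∈ K.filter (fun k => frm p q k = n), (frm p q k : ℝ) * ‖v k‖ ^ 2 =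
      n * ∑ k ∈ K.filter (fun k => frm p q k = n), ‖v k‖ ^ 2 := by
    rw [Finset.mul_sum]
    apply Finset.sum_congr rfl
    intro k hk
    rw [Finset.mem_filter] at hk
    rw [hk.2]
  rw [h1, h2, sum_sq_of_card, sum_sq_of_card]
  · have h3 := h n hn
    unfold amp at h3
    rw [eq_neg_of_add_eq_zero_left h3, norm_neg]
  · rw [Finset.card_le_one]
    intro k hk l hl
    rw [Finset.mem_filter] at hk hl
    exact frm_inj hnd (hk.2.trans hl.2.symm)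
  · rw [Finset.card_le_one]
    intro k hk l hl
    rw [Finset.mem_filter] at hk hl
    exact frp_inj hnd (hk.2.trans hl.2.symm)

theorem seg_identity {p q : ℤ} (hnd : ¬ q ∣ p) (K : Finset ℤ) (t₁ x₁ : ℝ)
    (cp cm : ℤ → ℂ)
    (h : ∀ n ∈ frs p q K, amp p q K (cop t₁ x₁ cp cm) (com t₁ x₁ cm) n = 0) :
    (q : ℝ) * ∑ k ∈ K, (k : ℝ) ^ 2 * (‖cp k‖ ^ 2 + ‖cm k‖ ^ 2) =
      p * ∑ k ∈ K, (k : ℝ) * (‖cp k‖ ^ 2 - ‖cm k‖ ^ 2) := by
  have h1 := weighted hnd K _ _ h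
  have h2 : ∑ k ∈ K, (frp p q k : ℝ) * ‖cop t₁ x₁ cp cm k‖ ^ 2 =
      ∑ k ∈ K, (frp p q k : ℝ) * ‖cp k‖ ^ 2 := by
    apply Finset.sum_congr rfl
    intro k _
    by_cases hk : k = 0
    · subst hk; simp [frp]
    · rw [norm_cop hk]
  have h3 : ∑ k ∈ K, (frm p q k : ℝ) * ‖com t₁ x₁ cm k‖ ^ 2 =
      ∑ k ∈ K, (frm p q k : ℝ) * ‖cm k‖ ^ 2 := by
    apply Finset.sum_congr rfl
    intro k _
    by_cases hk : k = 0
    · subst hk; simp [frm]
    · rw [norm_com hk]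
  rw [h2, h3] at h1
  rw [Finset.mul_sum, Finset.mul_sum, ← sub_eq_zero, ← Finset.sum_sub_distrib]
  rw [← sub_eq_zero, ← Finset.sum_sub_distrib] at h1
  rw [← h1]
  apply Finset.sum_congr rfl
  intro k _
  unfold frp frm
  push_cast
  ring

theorem injective {p₁ q₁ p₂ q₂ : ℤ} (hq₁ : 0 < q₁) (hq₂ : 0 < q₂) (hnd₁ : ¬ q₁ ∣ p₁)
    (hnd₂ : ¬ q₂ ∣ p₂) (hne : p₁ * q₂ ≠ p₂ * q₁) {K : Finset ℤ} (h0 : (0:ℤ) ∈ K)
    (t₁ x₁ t₂ x₂ : ℝ) (cp cm : ℤ → ℂ)
    (h1 : ∀ n ∈ frs p₁ q₁ K, amp p₁ q₁ K (cop t₁ x₁ cp cm) (com t₁ x₁ cm) n = 0)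
    (h2 : ∀ n ∈ frs p₂ q₂ K, amp p₂ q₂ K (cop t₂ x₂ cp cm) (com t₂ x₂ cm) n = 0)
    (h3 : cm 0 = 0) : ∀ k ∈ K, cp k = 0 ∧ cm k = 0 := by
  have e1 := seg_identity hnd₁ K t₁ x₁ cp cm h1
  have e2 := seg_identity hnd₂ K t₂ x₂ cp cm h2
  set S2 := ∑ k ∈ K, (k : ℝ) ^ 2 * (‖cp k‖ ^ 2 + ‖cm k‖ ^ 2) with hS2
  set S1 := ∑ k ∈ K, (k : ℝ) * (‖cp k‖ ^ 2 - ‖cm k‖ ^ 2)
  have hq₁r : (0:ℝ) < q₁ := by exact_mod_cast hq₁
  have hq₂r : (0:ℝ) < q₂ := by exact_mod_cast hq₂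
  have hner : (p₁ : ℝ) * q₂ - p₂ * q₁ ≠ 0 := by
    intro h
    apply hne
    have : (p₁ : ℝ) * q₂ = p₂ * q₁ := by linarith
    exact_mod_cast this
  have e3 : ((p₁ : ℝ) * q₂ - p₂ * q₁) * S1 = 0 := by
    have a1 : (q₂ : ℝ) * (q₁ * S2) = q₂ * (p₁ * S1) := by rw [e1]
    have a2 : (q₁ : ℝ) * (q₂ * S2) = q₁ * (p₂ * S1) := by rw [e2]
    linarith
  have e4 : S1 = 0 := by
    rcases mul_eq_zero.1 e3 with h | h
    · exact absurd h hner
    · exact h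
  have e5 : S2 = 0 := by
    rw [e4, mul_zero] at e1
    rcases mul_eq_zero.1 e1 with h | h
    · exact absurd h hq₁r.ne'
    · exact h
  rw [hS2, Finset.sum_eq_zero_iff_of_nonneg (fun k _ => by positivity)] at e5
  intro k hk
  by_cases hk0 : k = 0
  · subst hk0
    refine ⟨?_, h3⟩
    have h4 : (0:ℤ) ∈ frs p₁ q₁ K := by
      rw [frs, Finset.mem_union, Finset.mem_image]
      exact Or.inl ⟨0, h0, by unfold frp; ring⟩
    have h5 := h1 0 h4
    unfold amp at h5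
    have h6 : K.filter (fun k => frp p₁ q₁ k = 0) = {0} := by
      ext l
      rw [Finset.mem_filter, Finset.mem_singleton]
      constructor
      · rintro ⟨_, h⟩
        exact frp_inj hnd₁ (h.trans (by unfold frp; ring))
      · rintro rfl
        exact ⟨h0, by unfold frp; ring⟩
    have h7 : K.filter (fun k => frm p₁ q₁ k = 0) = {0} := by
      ext l
      rw [Finset.mem_filter, Finset.mem_singleton]
      constructor
      · rintro ⟨_, h⟩
        exact frm_inj hnd₁ (h.trans (by unfold frm; ring))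
      · rintro rfl
        exact ⟨h0, by unfold frm; ring⟩
    rw [h6, h7, Finset.sum_singleton, Finset.sum_singleton] at h5
    simp only [cop, com, if_true, h3, zero_mul, add_zero] at h5
    exact h5
  · have h4 := e5 k hk
    have hkr : (0:ℝ) < (k:ℝ) ^ 2 := by
      have : (k:ℝ) ≠ 0 := by exact_mod_cast hk0
      positivity
    have h5 : ‖cp k‖ ^ 2 + ‖cm k‖ ^ 2 = 0 := by
      rcases mul_eq_zero.1 h4 with h | h
      · exact absurd h hkr.ne'
      · exact h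
    have h6 : ‖cp k‖ ^ 2 = 0 := by nlinarith [sq_nonneg ‖cp k‖, sq_nonneg ‖cm k‖]
    have h7 : ‖cm k‖ ^ 2 = 0 := by nlinarith [sq_nonneg ‖cp k‖, sq_nonneg ‖cm k‖]
    exact ⟨norm_eq_zero.1 (pow_eq_zero_iff (by norm_num) |>.1 h6),
      norm_eq_zero.1 (pow_eq_zero_iff (by norm_num) |>.1 h7)⟩

/-- The energy of one segment. -/
noncomputable def en (p q : ℤ) (K : Finset ℤ) (t₁ x₁ : ℝ) (c : (ℤ → ℂ) × (ℤ → ℂ)) : ℝ :=
  ∑ n ∈ frs p q K, ‖amp p q K (cop t₁ x₁ c.1 c.2) (com t₁ x₁ c.2) n‖ ^ 2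

theorem en_nonneg (p q : ℤ) (K : Finset ℤ) (t₁ x₁ : ℝ) (c : (ℤ → ℂ) × (ℤ → ℂ)) :
    0 ≤ en p q K t₁ x₁ c := Finset.sum_nonneg (fun _ _ => by positivity)

theorem en_cont (p q : ℤ) (K : Finset ℤ) (t₁ x₁ : ℝ) : Continuous (en p q K t₁ x₁) := by
  have h1 : ∀ k, Continuous (fun c : (ℤ → ℂ) × (ℤ → ℂ) => cop t₁ x₁ c.1 c.2 k) := by
    intro k
    unfold cop
    by_cases hk : k = 0
    · simp only [if_pos hk]; fun_prop
    · simp only [if_neg hk]; fun_prop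
  have h2 : ∀ k, Continuous (fun c : (ℤ → ℂ) × (ℤ → ℂ) => com t₁ x₁ c.2 k) := by
    intro k
    unfold com
    by_cases hk : k = 0
    · simp only [if_pos hk]; fun_prop
    · simp only [if_neg hk]; fun_prop
  unfold en amp
  fun_prop

theorem cop_smul (t₁ x₁ : ℝ) (r : ℂ) (cp cm : ℤ → ℂ) (k : ℤ) :
    cop t₁ x₁ (fun k => r * cp k) (fun k => r * cm k) k = r * cop t₁ x₁ cp cm k := by
  unfold cop
  split_ifs <;> ring

theorem com_smul (t₁ x₁ : ℝ) (r : ℂ) (cm : ℤ → ℂ) (k : ℤ) :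
    com t₁ x₁ (fun k => r * cm k) k = r * com t₁ x₁ cm k := by
  unfold com
  split_ifs <;> ring

theorem en_smul (p q : ℤ) (K : Finset ℤ) (t₁ x₁ : ℝ) (r : ℂ) (c : (ℤ → ℂ) × (ℤ → ℂ)) :
    en p q K t₁ x₁ (fun k => r * c.1 k, fun k => r * c.2 k) = ‖r‖ ^ 2 * en p q K t₁ x₁ c := by
  unfold en
  rw [Finset.mul_sum]
  apply Finset.sum_congr rfl
  intro n _
  rw [← mul_pow, ← norm_mul]
  congr 2
  unfold amp
  simp only [cop_smul, com_smul]
  rw [mul_add, Finset.mul_sum, Finset.mul_sum]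

theorem cop_congr {t₁ x₁ : ℝ} {K : Finset ℤ} (h0 : (0:ℤ) ∈ K) {cp cm cp' cm' : ℤ → ℂ}
    (h1 : ∀ k ∈ K, cp k = cp' k) (h2 : ∀ k ∈ K, cm k = cm' k) {k : ℤ} (hk : k ∈ K) :
    cop t₁ x₁ cp cm k = cop t₁ x₁ cp' cm' k := by
  unfold cop
  rw [h1 0 h0, h2 0 h0, h1 k hk]

theorem com_congr {t₁ x₁ : ℝ} {K : Finset ℤ} {cm cm' : ℤ → ℂ}
    (h2 : ∀ k ∈ K, cm k = cm' k) {k : ℤ} (hk : k ∈ K) :
    com t₁ x₁ cm k = com t₁ x₁ cm' k := by
  unfold com
  rw [h2 k hk]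

theorem en_congr (p q : ℤ) {K : Finset ℤ} (h0 : (0:ℤ) ∈ K) (t₁ x₁ : ℝ)
    {c c' : (ℤ → ℂ) × (ℤ → ℂ)} (h1 : ∀ k ∈ K, c.1 k = c'.1 k) (h2 : ∀ k ∈ K, c.2 k = c'.2 k) :
    en p q K t₁ x₁ c = en p q K t₁ x₁ c' := by
  unfold en
  apply Finset.sum_congr rfl
  intro n _
  congr 2
  unfold amp
  congr 1
  · apply Finset.sum_congr rfl
    intro k hk
    exact cop_congr h0 h1 h2 (Finset.mem_filter.1 hk).1
  · apply Finset.sum_congr rfl
    intro k hk
    exact com_congr h2 (Finset.mem_filter.1 hk).1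

/-- Total square norm. -/
noncomputable def nrm (K : Finset ℤ) (c : (ℤ → ℂ) × (ℤ → ℂ)) : ℝ :=
  ∑ k ∈ K, (‖c.1 k‖ ^ 2 + ‖c.2 k‖ ^ 2)

theorem nrm_nonneg (K : Finset ℤ) (c : (ℤ → ℂ) × (ℤ → ℂ)) : 0 ≤ nrm K c :=
  Finset.sum_nonneg (fun _ _ => by positivity)

theorem low {p₁ q₁ p₂ q₂ : ℤ} (hq₁ : 0 < q₁) (hq₂ : 0 < q₂) (hnd₁ : ¬ q₁ ∣ p₁)
    (hnd₂ : ¬ q₂ ∣ p₂) (hne : p₁ * q₂ ≠ p₂ * q₁) {K : Finset ℤ} (h0 : (0:ℤ) ∈ K)
    (t₁ x₁ t₂ x₂ : ℝ) : ∃ κ : ℝ, 0 < κ ∧ ∀ c : (ℤ → ℂ) × (ℤ → ℂ),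
      κ * nrm K c ≤ en p₁ q₁ K t₁ x₁ c + en p₂ q₂ K t₂ x₂ c + ‖c.2 0‖ ^ 2 := by
  classical
  let Q : (ℤ → ℂ) × (ℤ → ℂ) → ℝ := fun c =>
    en p₁ q₁ K t₁ x₁ c + en p₂ q₂ K t₂ x₂ c + ‖c.2 0‖ ^ 2
  have hQc : Continuous Q := by
    have e1 := en_cont p₁ q₁ K t₁ x₁
    have e2 := en_cont p₂ q₂ K t₂ x₂
    simp only [Q]
    fun_prop
  have hNc : Continuous (nrm K) := by
    unfold nrm
    fun_prop
  let D : ℤ → Set ℂ := fun k => if k ∈ K then Metric.closedBall 0 1 else {0}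
  have hD : ∀ k, IsCompact (D k) := by
    intro k
    simp only [D]
    split_ifs
    · exact isCompact_closedBall 0 1
    · exact isCompact_singleton
  let S : Set ((ℤ → ℂ) × (ℤ → ℂ)) :=
    ((Set.univ.pi D) ×ˢ (Set.univ.pi D)) ∩ {c | nrm K c = 1}
  have hS : IsCompact S :=
    ((isCompact_univ_pi hD).prod (isCompact_univ_pi hD)).inter_right
      (isClosed_eq hNc continuous_const)
  -- normalisation
  have hnorm : ∀ c : (ℤ → ℂ) × (ℤ → ℂ), 0 < nrm K c → ∃ c' ∈ S, Q c = nrm K c * Q c' := by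
    intro c hc
    set r : ℝ := 1 / Real.sqrt (nrm K c) with hr
    have hsq : 0 < Real.sqrt (nrm K c) := Real.sqrt_pos.2 hc
    have hrpos : 0 < r := by positivity
    have hr2 : r ^ 2 * nrm K c = 1 := by
      rw [hr, div_pow, Real.sq_sqrt hc.le]
      field_simp
    let c1 : (ℤ → ℂ) × (ℤ → ℂ) := (fun k => (r : ℂ) * c.1 k, fun k => (r : ℂ) * c.2 k)
    let c' : (ℤ → ℂ) × (ℤ → ℂ) :=
      (fun k => if k ∈ K then c1.1 k else 0, fun k => if k ∈ K then c1.2 k else 0)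
    have hc'1 : ∀ k ∈ K, c'.1 k = c1.1 k := fun k hk => by simp only [c', if_pos hk]
    have hc'2 : ∀ k ∈ K, c'.2 k = c1.2 k := fun k hk => by simp only [c', if_pos hk]
    have hn1 : nrm K c' = 1 := by
      rw [← hr2]
      unfold nrm
      rw [Finset.mul_sum]
      apply Finset.sum_congr rfl
      intro k hk
      rw [hc'1 k hk, hc'2 k hk]
      simp only [c1]
      rw [norm_mul, norm_mul, Complex.norm_real, Real.norm_eq_abs, abs_of_pos hrpos]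
      ring
    have hle : ∀ k ∈ K, ‖c'.1 k‖ ^ 2 + ‖c'.2 k‖ ^ 2 ≤ 1 := by
      intro k hk
      rw [← hn1]
      exact Finset.single_le_sum (f := fun k => ‖c'.1 k‖ ^ 2 + ‖c'.2 k‖ ^ 2)
        (fun _ _ => by positivity) hk
    refine ⟨c', ⟨⟨?_, ?_⟩, hn1⟩, ?_⟩
    · intro k _
      simp only [D]
      split_ifs with h
      · rw [Metric.mem_closedBall, dist_zero_right]
        have := hle k h
        nlinarith [norm_nonneg (c'.1 k), sq_nonneg ‖c'.2 k‖]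
      · simp only [c', if_neg h, Set.mem_singleton_iff]
    · intro k _
      simp only [D]
      split_ifs with h
      · rw [Metric.mem_closedBall, dist_zero_right]
        have := hle k h
        nlinarith [norm_nonneg (c'.2 k), sq_nonneg ‖c'.1 k‖]
      · simp only [c', if_neg h, Set.mem_singleton_iff]
    · have hQ' : Q c' = r ^ 2 * Q c := by
        simp only [Q]
        rw [en_congr p₁ q₁ h0 t₁ x₁ hc'1 hc'2, en_congr p₂ q₂ h0 t₂ x₂ hc'1 hc'2, hc'2 0 h0]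
        simp only [c1]
        rw [en_smul, en_smul, norm_mul, Complex.norm_real, Real.norm_eq_abs, abs_of_pos hrpos]
        ring
      rw [hQ']
      have : nrm K c * (r ^ 2 * Q c) = (r ^ 2 * nrm K c) * Q c := by ring
      rw [this, hr2, one_mul]
  rcases S.eq_empty_or_nonempty with hem | hne'
  · refine ⟨1, one_pos, ?_⟩
    intro c
    rcases (nrm_nonneg K c).eq_or_lt with h | h
    · rw [← h]
      have e1 := en_nonneg p₁ q₁ K t₁ x₁ c
      have e2 := en_nonneg p₂ q₂ K t₂ x₂ c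
      rw [mul_zero]
      positivity
    · obtain ⟨c', hc', _⟩ := hnorm c h
      rw [hem] at hc'
      exact absurd hc' (Set.notMem_empty _)
  · obtain ⟨c0, hc0, hmin⟩ := hS.exists_isMinOn hne' hQc.continuousOn
    have hpos : 0 < Q c0 := by
      have e1 := en_nonneg p₁ q₁ K t₁ x₁ c0
      have e2 := en_nonneg p₂ q₂ K t₂ x₂ c0
      have e3 : 0 ≤ ‖c0.2 0‖ ^ 2 := by positivity
      rcases (show 0 ≤ Q c0 by simp only [Q]; linarith).eq_or_lt with h | h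
      · exfalso
        simp only [Q] at h
        have f1 : en p₁ q₁ K t₁ x₁ c0 = 0 := by linarith
        have f2 : en p₂ q₂ K t₂ x₂ c0 = 0 := by linarith
        have f3 : ‖c0.2 0‖ ^ 2 = 0 := by linarith
        unfold en at f1 f2
        rw [Finset.sum_eq_zero_iff_of_nonneg (fun _ _ => by positivity)] at f1 f2
        have f4 : c0.2 0 = 0 := norm_eq_zero.1 (pow_eq_zero_iff (by norm_num) |>.1 f3)
        have f5 := injective hq₁ hq₂ hnd₁ hnd₂ hne h0 t₁ x₁ t₂ x₂ c0.1 c0.2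
          (fun n hn => norm_eq_zero.1 (pow_eq_zero_iff (by norm_num) |>.1 (f1 n hn)))
          (fun n hn => norm_eq_zero.1 (pow_eq_zero_iff (by norm_num) |>.1 (f2 n hn))) f4
        have f6 : nrm K c0 = 1 := hc0.2
        unfold nrm at f6
        rw [Finset.sum_eq_zero (fun k hk => by
          rw [(f5 k hk).1, (f5 k hk).2, norm_zero]; norm_num)] at f6
        norm_num at f6
      · exact h
    refine ⟨Q c0, hpos, ?_⟩
    intro c
    rcases (nrm_nonneg K c).eq_or_lt with h | h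
    · rw [← h]
      have e1 := en_nonneg p₁ q₁ K t₁ x₁ c
      have e2 := en_nonneg p₂ q₂ K t₂ x₂ c
      rw [mul_zero]
      positivity
    · obtain ⟨c', hc', hQ⟩ := hnorm c h
      have h1 : Q c0 ≤ Q c' := hmin hc'
      have h2 : Q c0 * nrm K c ≤ Q c' * nrm K c := mul_le_mul_of_nonneg_right h1 h.le
      calc Q c0 * nrm K c ≤ Q c' * nrm K c := h2
        _ = Q c := by rw [hQ]; ring
        _ = _ := rfl

theorem amp_low {p q : ℤ} (hq : 0 < q) (hnd : ¬ q ∣ p) {R : ℤ} (hR : 2 * |p| ≤ R)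
    {K : Finset ℤ} (hK : Finset.Icc (-R) R ⊆ K) (u v : ℤ → ℂ) {n : ℤ}
    (hn : n ∈ frs p q (Finset.Icc (-R) R)) :
    amp p q (Finset.Icc (-R) R) u v n = amp p q K u v n := by
  have hmem : ∀ k, |k| ≤ R → k ∈ Finset.Icc (-R) R := by
    intro k hk
    rw [Finset.mem_Icc]
    exact abs_le.1 hk
  rw [frs, Finset.mem_union, Finset.mem_image, Finset.mem_image] at hn
  have h1 : K.filter (fun k => frp p q k = n) =
      (Finset.Icc (-R) R).filter (fun k => frp p q k = n) := by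
    ext k
    rw [Finset.mem_filter, Finset.mem_filter]
    constructor
    · rintro ⟨_, h⟩
      refine ⟨?_, h⟩
      rcases hn with ⟨l, hl, hln⟩ | ⟨l, _, hln⟩
      · have := frp_inj hnd (h.trans hln.symm)
        rw [this]; exact hl
      · exact hmem _ (fr_cross hq hR (h.trans hln.symm)).1
    · rintro ⟨h, h'⟩
      exact ⟨hK h, h'⟩
  have h2 : K.filter (fun k => frm p q k = n) =
      (Finset.Icc (-R) R).filter (fun k => frm p q k = n) := by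
    ext k
    rw [Finset.mem_filter, Finset.mem_filter]
    constructor
    · rintro ⟨_, h⟩
      refine ⟨?_, h⟩
      rcases hn with ⟨l, _, hln⟩ | ⟨l, hl, hln⟩
      · exact hmem _ (fr_cross hq hR (hln.trans h.symm)).2
      · have := frm_inj hnd (h.trans hln.symm)
        rw [this]; exact hl
    · rintro ⟨h, h'⟩
      exact ⟨hK h, h'⟩
  unfold amp
  rw [h1, h2]

theorem en_low {p q : ℤ} (hq : 0 < q) (hnd : ¬ q ∣ p) {R : ℤ} (hR : 2 * |p| ≤ R)
    {K : Finset ℤ} (hK : Finset.Icc (-R) R ⊆ K) (t₁ x₁ : ℝ) (c : (ℤ → ℂ) × (ℤ → ℂ)) :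
    en p q (Finset.Icc (-R) R) t₁ x₁ c ≤ en p q K t₁ x₁ c := by
  unfold en
  rw [Finset.sum_congr rfl (fun n hn => by rw [amp_low hq hnd hR hK _ _ hn])]
  apply Finset.sum_le_sum_of_subset_of_nonneg
  · intro n hn
    rw [frs, Finset.mem_union, Finset.mem_image, Finset.mem_image] at hn ⊢
    rcases hn with ⟨k, hk, h⟩ | ⟨k, hk, h⟩
    · exact Or.inl ⟨k, hK hk, h⟩
    · exact Or.inr ⟨k, hK hk, h⟩
  · intro _ _ _; positivity

theorem high {p q : ℤ} (hq : 0 < q) (hnd : ¬ q ∣ p) {R : ℤ} (hR0 : 0 ≤ R) (hR : 2 * |p| ≤ R)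
    (K : Finset ℤ) (t₁ x₁ : ℝ) (c : (ℤ → ℂ) × (ℤ → ℂ)) :
    nrm (K.filter (fun k => R < |k|)) c ≤ 2 * en p q K t₁ x₁ c := by
  classical
  set H := K.filter (fun k => R < |k|) with hH
  set a : ℤ → ℂ := amp p q K (cop t₁ x₁ c.1 c.2) (com t₁ x₁ c.2) with ha
  have hk0 : ∀ k ∈ H, k ≠ 0 := by
    intro k hk h
    rw [hH, Finset.mem_filter, h, abs_zero] at hk
    linarith [hk.2]
  have h1 : ∀ k ∈ H, a (frp p q k) = cop t₁ x₁ c.1 c.2 k := by
    intro k hk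
    have hk' := Finset.mem_filter.1 hk
    simp only [ha]
    unfold amp
    have e1 : K.filter (fun l => frp p q l = frp p q k) = {k} := by
      ext l
      rw [Finset.mem_filter, Finset.mem_singleton]
      constructor
      · rintro ⟨_, h⟩; exact frp_inj hnd h
      · rintro rfl; exact ⟨hk'.1, rfl⟩
    have e2 : K.filter (fun l => frm p q l = frp p q k) = ∅ := by
      apply Finset.filter_eq_empty_iff.2
      intro l _ h
      have := (fr_cross hq hR h.symm).1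
      linarith [hk'.2]
    rw [e1, e2, Finset.sum_singleton, Finset.sum_empty, add_zero]
  have h2 : ∀ k ∈ H, a (frm p q k) = com t₁ x₁ c.2 k := by
    intro k hk
    have hk' := Finset.mem_filter.1 hk
    simp only [ha]
    unfold amp
    have e1 : K.filter (fun l => frm p q l = frm p q k) = {k} := by
      ext l
      rw [Finset.mem_filter, Finset.mem_singleton]
      constructor
      · rintro ⟨_, h⟩; exact frm_inj hnd h
      · rintro rfl; exact ⟨hk'.1, rfl⟩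
    have e2 : K.filter (fun l => frp p q l = frm p q k) = ∅ := by
      apply Finset.filter_eq_empty_iff.2
      intro l _ h
      have := (fr_cross hq hR h).2
      linarith [hk'.2]
    rw [e1, e2, Finset.sum_singleton, Finset.sum_empty, zero_add]
  have h3 : ∑ k ∈ H, ‖c.1 k‖ ^ 2 ≤ en p q K t₁ x₁ c := by
    have e1 : ∑ k ∈ H, ‖c.1 k‖ ^ 2 = ∑ n ∈ H.image (frp p q), ‖a n‖ ^ 2 := by
      rw [Finset.sum_image (fun k _ l _ h => frp_inj hnd h)]
      apply Finset.sum_congr rfl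
      intro k hk
      rw [h1 k hk, norm_cop (hk0 k hk)]
    rw [e1]
    unfold en
    apply Finset.sum_le_sum_of_subset_of_nonneg
    · intro n hn
      rw [Finset.mem_image] at hn
      obtain ⟨k, hk, rfl⟩ := hn
      exact Finset.mem_union_left _ (Finset.mem_image_of_mem _ (Finset.mem_filter.1 hk).1)
    · intro _ _ _; positivity
  have h4 : ∑ k ∈ H, ‖c.2 k‖ ^ 2 ≤ en p q K t₁ x₁ c := by
    have e1 : ∑ k ∈ H, ‖c.2 k‖ ^ 2 = ∑ n ∈ H.image (frm p q), ‖a n‖ ^ 2 := by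
      rw [Finset.sum_image (fun k _ l _ h => frm_inj hnd h)]
      apply Finset.sum_congr rfl
      intro k hk
      rw [h2 k hk, norm_com (hk0 k hk)]
    rw [e1]
    unfold en
    apply Finset.sum_le_sum_of_subset_of_nonneg
    · intro n hn
      rw [Finset.mem_image] at hn
      obtain ⟨k, hk, rfl⟩ := hn
      exact Finset.mem_union_right _ (Finset.mem_image_of_mem _ (Finset.mem_filter.1 hk).1)
    · intro _ _ _; positivity
  unfold nrm
  rw [Finset.sum_add_distrib]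
  linarith

theorem mode_cont (cp cm : ℤ → ℂ) (k : ℤ) : Continuous (fun z : ℝ × ℝ => mode cp cm k z.1 z.2) := by
  unfold mode
  by_cases hk : k = 0
  · simp only [if_pos hk]; fun_prop
  · simp only [if_neg hk]; fun_prop

theorem sol_cont (K : Finset ℤ) (cp cm : ℤ → ℂ) :
    Continuous (fun z : ℝ × ℝ => sol K cp cm z.1 z.2) := by
  unfold sol
  exact continuous_finsetSum _ (fun k _ => mode_cont cp cm k)

/-- The two-segment inequality, integer form. -/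
theorem two_seg {p₁ q₁ p₂ q₂ : ℤ} (hq₁ : 0 < q₁) (hq₂ : 0 < q₂) (hnd₁ : ¬ q₁ ∣ p₁)
    (hnd₂ : ¬ q₂ ∣ p₂) (hne : p₁ * q₂ ≠ p₂ * q₁) (t₁ x₁ t₂ x₂ : ℝ) {T : ℝ} (hT : 0 < T) :
    ∃ C : ℝ, ∀ (K : Finset ℤ) (cp cm : ℤ → ℂ), ∑ k ∈ K, (‖cp k‖ ^ 2 + ‖cm k‖ ^ 2) ≤
      C * ∫ t in (0:ℝ)..T, (‖sol K cp cm (t₁ + t) (x₁ - (p₁ : ℝ) / q₁ * t)‖ ^ 2 +
        ‖sol K cp cm (t₂ + t) (x₂ - (p₂ : ℝ) / q₂ * t)‖ ^ 2) := by
  classical
  obtain ⟨C₁, hC₁, hs₁⟩ := seg_ineq hq₁ hnd₁ t₁ x₁ hT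
  obtain ⟨C₂, hC₂, hs₂⟩ := seg_ineq hq₂ hnd₂ t₂ x₂ hT
  set R : ℤ := 2 * |p₁| + 2 * |p₂| with hR
  have hp₁ := abs_nonneg p₁
  have hp₂ := abs_nonneg p₂
  have hR0 : 0 ≤ R := by linarith
  have h0R : (0:ℤ) ∈ Finset.Icc (-R) R := by
    rw [Finset.mem_Icc]; constructor <;> linarith
  obtain ⟨κ, hκ, hlow⟩ := low hq₁ hq₂ hnd₁ hnd₂ hne h0R t₁ x₁ t₂ x₂
  refine ⟨2 * C₁ + 1 / κ * (C₁ + C₂), ?_⟩
  intro K cp cm
  let K' := K ∪ Finset.Icc (-R) R
  let cp' : ℤ → ℂ := fun k => if k ∈ K then cp k else 0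
  let cm' : ℤ → ℂ := fun k => if k ∈ K then cm k else 0
  have h0K : (0:ℤ) ∈ K' := Finset.mem_union_right _ h0R
  have hsol : ∀ t x, sol K' cp' cm' t x = sol K cp cm t x := by
    intro t x
    unfold sol
    rw [← Finset.sum_subset (Finset.subset_union_left : K ⊆ K')]
    · apply Finset.sum_congr rfl
      intro k hk
      unfold mode
      by_cases hk0 : k = 0
      · subst hk0
        simp only [cp', cm', if_pos hk]
      · simp only [cp', cm', if_pos hk, if_neg hk0]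
    · intro k _ hk
      unfold mode
      by_cases hk0 : k = 0
      · subst hk0
        simp only [cp', cm', if_neg hk]
        simp
      · simp only [cp', cm', if_neg hk, if_neg hk0]
        simp
  have e1 := hs₁ K' h0K cp' cm'
  have e2 := hs₂ K' h0K cp' cm'
  simp only [hsol] at e1 e2
  have hint : ∀ (τ ξ α : ℝ), IntervalIntegrable
      (fun t => ‖sol K cp cm (τ + t) (ξ - α * t)‖ ^ 2) volume 0 T := by
    intro τ ξ α
    apply Continuous.intervalIntegrable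
    have h1 : Continuous (fun t : ℝ => sol K cp cm (τ + t) (ξ - α * t)) :=
      (sol_cont K cp cm).comp (f := fun t : ℝ => (τ + t, ξ - α * t)) (by fun_prop)
    fun_prop
  rw [intervalIntegral.integral_add (hint _ _ _) (hint _ _ _)]
  set I₁ := ∫ t in (0:ℝ)..T, ‖sol K cp cm (t₁ + t) (x₁ - (p₁ : ℝ) / q₁ * t)‖ ^ 2
  set I₂ := ∫ t in (0:ℝ)..T, ‖sol K cp cm (t₂ + t) (x₂ - (p₂ : ℝ) / q₂ * t)‖ ^ 2
  have hI₁ : 0 ≤ I₁ := intervalIntegral.integral_nonneg hT.le (fun _ _ => by positivity)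
  have hI₂ : 0 ≤ I₂ := intervalIntegral.integral_nonneg hT.le (fun _ _ => by positivity)
  change en p₁ q₁ K' t₁ x₁ (cp', cm') + ‖cm' 0‖ ^ 2 ≤ C₁ * I₁ at e1
  change en p₂ q₂ K' t₂ x₂ (cp', cm') + ‖cm' 0‖ ^ 2 ≤ C₂ * I₂ at e2
  have e3 := hlow (cp', cm')
  have e4 := en_low hq₁ hnd₁ (by linarith : 2 * |p₁| ≤ R)
    (Finset.subset_union_right : Finset.Icc (-R) R ⊆ K') t₁ x₁ (cp', cm')
  have e5 := en_low hq₂ hnd₂ (by linarith : 2 * |p₂| ≤ R)
    (Finset.subset_union_right : Finset.Icc (-R) R ⊆ K') t₂ x₂ (cp', cm')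
  have e6 := high hq₁ hnd₁ hR0 (by linarith : 2 * |p₁| ≤ R) K' t₁ x₁ (cp', cm')
  have e7 : ∑ k ∈ K, (‖cp k‖ ^ 2 + ‖cm k‖ ^ 2) ≤
      nrm (Finset.Icc (-R) R) (cp', cm') + nrm (K'.filter (fun k => R < |k|)) (cp', cm') := by
    have f1 : ∑ k ∈ K, (‖cp k‖ ^ 2 + ‖cm k‖ ^ 2) = nrm K (cp', cm') := by
      unfold nrm
      apply Finset.sum_congr rfl
      intro k hk
      simp only [cp', cm', if_pos hk]
    rw [f1]
    unfold nrm
    rw [← Finset.sum_union]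
    · apply Finset.sum_le_sum_of_subset_of_nonneg
      · intro k hk
        rw [Finset.mem_union]
        by_cases h : R < |k|
        · right
          rw [Finset.mem_filter]
          exact ⟨Finset.mem_union_left _ hk, h⟩
        · left
          rw [Finset.mem_Icc]
          push Not at h
          exact abs_le.1 h
      · intro _ _ _; positivity
    · rw [Finset.disjoint_left]
      intro k hk hk'
      rw [Finset.mem_Icc] at hk
      rw [Finset.mem_filter] at hk'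
      have := abs_le.2 hk
      linarith [hk'.2]
  have e8 : nrm (Finset.Icc (-R) R) (cp', cm') ≤ 1 / κ * (C₁ * I₁ + C₂ * I₂) := by
    have f1 : κ * nrm (Finset.Icc (-R) R) (cp', cm') ≤ C₁ * I₁ + C₂ * I₂ := by
      have f2 : 0 ≤ ‖cm' 0‖ ^ 2 := by positivity
      refine le_trans e3 ?_
      change en p₁ q₁ (Finset.Icc (-R) R) t₁ x₁ (cp', cm') +
        en p₂ q₂ (Finset.Icc (-R) R) t₂ x₂ (cp', cm') + ‖cm' 0‖ ^ 2 ≤ _
      linarith
    rw [one_div, inv_mul_eq_div, le_div_iff₀ hκ]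
    linarith
  have e9 : 0 ≤ ‖cm' 0‖ ^ 2 := by positivity
  have e10 : 1 / κ * (C₁ * I₁ + C₂ * I₂) ≤ 1 / κ * (C₁ + C₂) * (I₁ + I₂) := by
    have f1 : C₁ * I₁ + C₂ * I₂ ≤ (C₁ + C₂) * (I₁ + I₂) := by nlinarith [mul_nonneg hC₁.le hI₂, mul_nonneg hC₂.le hI₁]
    rw [mul_assoc]
    exact mul_le_mul_of_nonneg_left f1 (by positivity)
  have e11 : 2 * (C₁ * I₁) ≤ 2 * C₁ * (I₁ + I₂) := by nlinarith [mul_nonneg hC₁.le hI₂]
  linarith

end Pool.Agent.V1185.Beam
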