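import Mathlib

open Finset MeasureTheory intervalIntegral Complex
open scoped ComplexConjugate

namespace Pool.Agent.V1185.Beam

/-- `e^{i n t / q}`. -/
noncomputable def E (q n : ℤ) (t : ℝ) : ℂ := Complex.exp ((((n : ℝ) / (q : ℝ) * t : ℝ) : ℂ) * I)

theorem E_norm (q n : ℤ) (t : ℝ) : ‖E q n t‖ = 1 := Complex.norm_exp_ofReal_mul_I _

theorem E_zero (q : ℤ) (t : ℝ) : E q 0 t = 1 := by simp [E]

theorem E_mul (q n m : ℤ) (t : ℝ) : E q n t * E q m t = E q (n + m) t := by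
  unfold E
  rw [← Complex.exp_add]
  congr 1
  push_cast
  ring

theorem E_add (q n : ℤ) (t s : ℝ) : E q n (t + s) = E q n t * E q n s := by
  unfold E
  rw [← Complex.exp_add]
  congr 1
  push_cast
  ring

theorem E_conj (q n : ℤ) (t : ℝ) : conj (E q n t) = E q (-n) t := by
  unfold E
  rw [← Complex.exp_conj]
  congr 1
  simp only [map_mul, Complex.conj_ofReal, Complex.conj_I]
  push_cast
  ring

@[fun_prop]
theorem E_cont (q n : ℤ) : Continuous (E q n) := by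
  unfold E
  fun_prop

/-- Exponential polynomial. -/
noncomputable def poly (q : ℤ) (s : Finset ℤ) (A : ℤ → ℂ) (t : ℝ) : ℂ := ∑ n ∈ s, A n * E q n t

@[fun_prop]
theorem poly_cont (q : ℤ) (s : Finset ℤ) (A : ℤ → ℂ) : Continuous (poly q s A) := by
  unfold poly
  fun_prop

theorem expand (q : ℤ) (s : Finset ℤ) (A : ℤ → ℂ) {k : ℝ → ℝ} (hk : Continuous k) (L : ℝ) :
    ((∫ t in (0:ℝ)..L, k t * ‖poly q s A t‖ ^ 2 : ℝ) : ℂ) =
      ∑ n ∈ s, ∑ m ∈ s, A n * conj (A m) * ∫ t in (0:ℝ)..L, (k t : ℂ) * E q (n - m) t := by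
  rw [← intervalIntegral.integral_ofReal]
  have h1 : ∀ t : ℝ, ((k t * ‖poly q s A t‖ ^ 2 : ℝ) : ℂ) =
      ∑ n ∈ s, ∑ m ∈ s, A n * conj (A m) * ((k t : ℂ) * E q (n - m) t) := by
    intro t
    have h2 : ((‖poly q s A t‖ ^ 2 : ℝ) : ℂ) = poly q s A t * conj (poly q s A t) := by
      rw [Complex.mul_conj, Complex.normSq_eq_norm_sq]
    rw [Complex.ofReal_mul, h2]
    unfold poly
    rw [map_sum, Finset.sum_mul_sum, Finset.mul_sum]
    apply Finset.sum_congr rfl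
    intro n _
    rw [Finset.mul_sum]
    apply Finset.sum_congr rfl
    intro m _
    rw [map_mul, E_conj, sub_eq_add_neg, ← E_mul]
    ring
  simp only [h1]
  rw [intervalIntegral.integral_finsetSum]
  · apply Finset.sum_congr rfl
    intro n _
    rw [intervalIntegral.integral_finsetSum]
    · apply Finset.sum_congr rfl
      intro m _
      rw [intervalIntegral.integral_const_mul]
    · intro m _
      apply Continuous.intervalIntegrable
      fun_prop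
  · intro n _
    apply Continuous.intervalIntegrable
    fun_prop

theorem schur (s : Finset ℤ) (A : ℤ → ℂ) (Kf : ℤ → ℂ) (b : ℤ → ℝ) (ρ : ℝ)
    (hKb : ∀ n ∈ s, ∀ m ∈ s, n ≠ m → ‖Kf (n - m)‖ ≤ b (n - m)) (hb : ∀ l, b (-l) = b l)
    (hρ : ∀ n ∈ s, ∑ m ∈ s.erase n, b (n - m) ≤ ρ) :
    ‖∑ n ∈ s, ∑ m ∈ s, A n * conj (A m) * Kf (n - m) - Kf 0 * ((∑ n ∈ s, ‖A n‖ ^ 2 : ℝ) : ℂ)‖ ≤
      ρ * ∑ n ∈ s, ‖A n‖ ^ 2 := by
  have h1 : ∑ n ∈ s, ∑ m ∈ s, A n * conj (A m) * Kf (n - m) -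
      Kf 0 * ((∑ n ∈ s, ‖A n‖ ^ 2 : ℝ) : ℂ) =
      ∑ n ∈ s, ∑ m ∈ s.erase n, A n * conj (A m) * Kf (n - m) := by
    rw [Complex.ofReal_sum, Finset.mul_sum, ← Finset.sum_sub_distrib]
    apply Finset.sum_congr rfl
    intro n hn
    rw [← Finset.add_sum_erase s _ hn, sub_self]
    have h2 : ((‖A n‖ ^ 2 : ℝ) : ℂ) = A n * conj (A n) := by
      rw [Complex.mul_conj, Complex.normSq_eq_norm_sq]
    rw [h2]
    ring
  rw [h1]
  have h2 : ‖∑ n ∈ s, ∑ m ∈ s.erase n, A n * conj (A m) * Kf (n - m)‖ ≤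
      ∑ n ∈ s, ∑ m ∈ s.erase n, (‖A n‖ ^ 2 * b (n - m) / 2 + ‖A m‖ ^ 2 * b (n - m) / 2) := by
    refine le_trans (norm_sum_le _ _) ?_
    apply Finset.sum_le_sum
    intro n hn
    refine le_trans (norm_sum_le _ _) ?_
    apply Finset.sum_le_sum
    intro m hm
    rw [Finset.mem_erase] at hm
    rw [norm_mul, norm_mul, RCLike.norm_conj]
    have h3 := hKb n hn m hm.2 hm.1.symm
    have h4 : ‖A n‖ * ‖A m‖ ≤ (‖A n‖ ^ 2 + ‖A m‖ ^ 2) / 2 := by
      nlinarith [sq_nonneg (‖A n‖ - ‖A m‖)]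
    calc ‖A n‖ * ‖A m‖ * ‖Kf (n - m)‖ ≤ (‖A n‖ ^ 2 + ‖A m‖ ^ 2) / 2 * b (n - m) :=
          mul_le_mul h4 h3 (norm_nonneg _) (by positivity)
      _ = _ := by ring
  refine le_trans h2 ?_
  have h3 : ∑ n ∈ s, ∑ m ∈ s.erase n, (‖A n‖ ^ 2 * b (n - m) / 2 + ‖A m‖ ^ 2 * b (n - m) / 2) =
      ∑ n ∈ s, ‖A n‖ ^ 2 / 2 * ∑ m ∈ s.erase n, b (n - m) +
      ∑ m ∈ s, ‖A m‖ ^ 2 / 2 * ∑ n ∈ s.erase m, b (m - n) := by
    simp only [Finset.sum_add_distrib]
    congr 1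
    · apply Finset.sum_congr rfl
      intro n _
      rw [Finset.mul_sum]
      apply Finset.sum_congr rfl
      intro m _
      ring
    · rw [Finset.sum_comm' (s' := fun m => s.erase m) (t' := s)]
      · apply Finset.sum_congr rfl
        intro m _
        rw [Finset.mul_sum]
        apply Finset.sum_congr rfl
        intro n _
        rw [← hb (m - n), neg_sub]
        ring
      · intro x y
        simp only [Finset.mem_erase]
        constructor
        · rintro ⟨h4, h5, h6⟩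
          exact ⟨⟨fun h => h5 h.symm, h4⟩, h6⟩
        · rintro ⟨⟨h4, h5⟩, h6⟩
          exact ⟨h5, fun h => h4 h.symm, h6⟩
  rw [h3, ← Finset.sum_add_distrib, Finset.mul_sum]
  apply Finset.sum_le_sum
  intro n hn
  have h4 := hρ n hn
  have h5 : 0 ≤ ‖A n‖ ^ 2 / 2 := by positivity
  have h6 := mul_le_mul_of_nonneg_left h4 h5
  linarith

theorem int_E {q l : ℤ} (hq : 0 < q) (hl : l ≠ 0) (N : ℕ) :
    ∫ t in (0:ℝ)..(2 * Real.pi * q * N), E q l t = 0 := by
  have hqr : (q : ℝ) ≠ 0 := by exact_mod_cast hq.ne'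
  have hqc : (q : ℂ) ≠ 0 := by exact_mod_cast hq.ne'
  have hlc : (l : ℂ) ≠ 0 := by exact_mod_cast hl
  have h1 : ∀ t : ℝ, E q l t = Complex.exp ((l : ℂ) / q * I * (t : ℂ)) := by
    intro t
    unfold E
    congr 1
    push_cast
    ring
  simp only [h1]
  have hc : (l : ℂ) / q * I ≠ 0 := mul_ne_zero (div_ne_zero hlc hqc) I_ne_zero
  rw [integral_exp_mul_complex hc]
  have h2 : Complex.exp ((l : ℂ) / q * I * ((2 * Real.pi * q * N : ℝ) : ℂ)) = 1 := by
    have : (l : ℂ) / q * I * ((2 * Real.pi * q * N : ℝ) : ℂ) =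
        ((l * N : ℤ) : ℂ) * (2 * Real.pi * I) := by
      push_cast
      field_simp
    rw [this]
    exact Complex.exp_int_mul_two_pi_mul_I _
  rw [h2]
  simp

/-- The direct inequality. -/
theorem direct {q : ℤ} (hq : 0 < q) (T : ℝ) (hT : 0 < T) : ∃ L : ℝ, 0 < L ∧ ∀ (s : Finset ℤ)
    (A : ℤ → ℂ), ∫ t in (0:ℝ)..T, ‖poly q s A t‖ ^ 2 ≤ L * ∑ n ∈ s, ‖A n‖ ^ 2 := by
  have hqr : (0:ℝ) < q := by exact_mod_cast hq
  obtain ⟨N, hN⟩ := exists_nat_ge (T / (2 * Real.pi * q))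
  have hpi := Real.pi_pos
  have hTL : T ≤ 2 * Real.pi * q * N := by
    rw [div_le_iff₀ (by positivity)] at hN
    linarith
  refine ⟨2 * Real.pi * q * N, lt_of_lt_of_le hT hTL, ?_⟩
  intro s A
  set L := 2 * Real.pi * q * N with hL
  have h1 : ∫ t in (0:ℝ)..T, ‖poly q s A t‖ ^ 2 ≤ ∫ t in (0:ℝ)..L, ‖poly q s A t‖ ^ 2 := by
    apply intervalIntegral.integral_mono_interval le_rfl hT.le hTL
    · exact Filter.Eventually.of_forall (fun t => by positivity)
    · apply Continuous.intervalIntegrable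
      fun_prop
  refine le_trans h1 (le_of_eq ?_)
  have h2 := expand q s A (k := fun _ => 1) continuous_const L
  simp only [one_mul, Complex.ofReal_one] at h2
  have h3 : ∑ n ∈ s, ∑ m ∈ s, A n * conj (A m) * ∫ t in (0:ℝ)..L, E q (n - m) t =
      ((L * ∑ n ∈ s, ‖A n‖ ^ 2 : ℝ) : ℂ) := by
    rw [Complex.ofReal_mul, Complex.ofReal_sum, Finset.mul_sum]
    apply Finset.sum_congr rfl
    intro n hn
    rw [← Finset.add_sum_erase s _ hn]
    have h4 : ∑ m ∈ s.erase n, A n * conj (A m) * ∫ t in (0:ℝ)..L, E q (n - m) t = 0 := by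
      apply Finset.sum_eq_zero
      intro m hm
      rw [Finset.mem_erase] at hm
      rw [int_E hq (sub_ne_zero.2 hm.1.symm), mul_zero]
    rw [h4, add_zero, sub_self]
    have h5 : ∫ t in (0:ℝ)..L, E q 0 t = (L : ℂ) := by
      simp only [E_zero]
      simp
    rw [h5]
    have h6 : ((‖A n‖ ^ 2 : ℝ) : ℂ) = A n * conj (A n) := by
      rw [Complex.mul_conj, Complex.normSq_eq_norm_sq]
    rw [h6]
    ring
  rw [h3] at h2
  exact_mod_cast h2

/-- One-sided sum over a separated set. -/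
theorem sep_one (s : Finset ℤ) (d : ℤ → ℤ) {g : ℤ} (hg : 0 < g) (h1 : ∀ m ∈ s, g ≤ d m)
    (h2 : ∀ m ∈ s, ∀ m' ∈ s, m ≠ m' → g ≤ |d m - d m'|) :
    ∑ m ∈ s, (1:ℝ) / (d m : ℝ) ^ 2 ≤ 2 / (g : ℝ) ^ 2 := by
  have hgr : (0:ℝ) < g := by exact_mod_cast hg
  let φ : ℤ → ℕ := fun m => (d m / g).toNat
  have hφ : ∀ m ∈ s, (φ m : ℤ) = d m / g := by
    intro m hm
    have : 0 ≤ d m / g := Int.ediv_nonneg (by linarith [h1 m hm]) hg.le
    exact Int.toNat_of_nonneg this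
  have hφ1 : ∀ m ∈ s, 1 ≤ d m / g := by
    intro m hm
    rw [Int.le_ediv_iff_mul_le hg]
    linarith [h1 m hm]
  have hinj : Set.InjOn φ s := by
    intro m hm m' hm' heq
    by_contra hne
    have h3 := h2 m hm m' hm' hne
    have h4 : d m / g = d m' / g := by
      rw [← hφ m hm, ← hφ m' hm', heq]
    have h5 := Int.emod_add_mul_ediv (d m) g
    have h6 := Int.emod_add_mul_ediv (d m') g
    have h7 := Int.emod_nonneg (d m) hg.ne'
    have h8 := Int.emod_nonneg (d m') hg.ne'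
    have h9 := Int.emod_lt_of_pos (d m) hg
    have h10 := Int.emod_lt_of_pos (d m') hg
    rw [h4] at h5
    have h11 : |d m - d m'| < g := by
      rw [abs_lt]
      constructor <;> linarith
    linarith
  have h3 : ∀ m ∈ s, (1:ℝ) / (d m : ℝ) ^ 2 ≤ 1 / (g : ℝ) ^ 2 * (1 / (φ m : ℝ) ^ 2) := by
    intro m hm
    have h4 : (φ m : ℤ) * g ≤ d m := by
      rw [hφ m hm]
      exact Int.ediv_mul_le _ hg.ne'
    have h5 : (1:ℤ) ≤ φ m := by rw [hφ m hm]; exact hφ1 m hm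
    have h6 : ((φ m : ℤ) : ℝ) * g ≤ d m := by exact_mod_cast h4
    have h7 : (1:ℝ) ≤ ((φ m : ℤ) : ℝ) := by exact_mod_cast h5
    have h8 : ((φ m : ℤ) : ℝ) = (φ m : ℝ) := by push_cast; rfl
    rw [h8] at h6 h7
    have h9 : (0:ℝ) < φ m := by linarith
    have e : 1 / (g:ℝ) ^ 2 * (1 / (φ m:ℝ) ^ 2) = 1 / ((φ m:ℝ) * g) ^ 2 := by field_simp
    rw [e]
    apply one_div_le_one_div_of_le (by positivity)
    apply pow_le_pow_left₀ (by positivity)
    linarith
  refine le_trans (Finset.sum_le_sum h3) ?_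
  rw [← Finset.mul_sum]
  have h4 : ∑ m ∈ s, (1:ℝ) / (φ m : ℝ) ^ 2 ≤ 2 := by
    have h5 : ∑ m ∈ s, (1:ℝ) / (φ m : ℝ) ^ 2 = ∑ j ∈ s.image φ, (1:ℝ) / (j : ℝ) ^ 2 := by
      rw [Finset.sum_image hinj]
    rw [h5]
    have h6 := sum_le_hasSum (s.image φ) (fun i _ => by positivity) hasSum_zeta_two
    refine le_trans h6 ?_
    have := Real.pi_lt_d2
    nlinarith [Real.pi_pos]
  calc 1 / (g:ℝ) ^ 2 * ∑ m ∈ s, (1:ℝ) / (φ m : ℝ) ^ 2 ≤ 1 / (g:ℝ) ^ 2 * 2 :=
        mul_le_mul_of_nonneg_left h4 (by positivity)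
    _ = _ := by ring

theorem sep_sum (s : Finset ℤ) {g : ℤ} (hg : 0 < g)
    (h : ∀ m ∈ s, ∀ m' ∈ s, m ≠ m' → g ≤ |m - m'|) (n : ℤ) (hn : n ∈ s) :
    ∑ m ∈ s.erase n, (1:ℝ) / ((n - m : ℤ) : ℝ) ^ 2 ≤ 4 / (g : ℝ) ^ 2 := by
  rw [← Finset.sum_filter_add_sum_filter_not (s.erase n) (fun m => m < n)]
  have h1 := sep_one ((s.erase n).filter (fun m => m < n)) (fun m => n - m) hg (by
    intro m hm
    rw [Finset.mem_filter, Finset.mem_erase] at hm
    have := h n hn m hm.1.2 (fun e => hm.1.1 e.symm)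
    rwa [abs_of_pos (by linarith [hm.2])] at this) (by
    intro m hm m' hm' hne
    rw [Finset.mem_filter, Finset.mem_erase] at hm hm'
    have := h m hm.1.2 m' hm'.1.2 hne
    have e : (n - m) - (n - m') = -(m - m') := by ring
    rw [e, abs_neg]
    exact this)
  have h2 := sep_one ((s.erase n).filter (fun m => ¬ m < n)) (fun m => m - n) hg (by
    intro m hm
    rw [Finset.mem_filter, Finset.mem_erase] at hm
    have := h m hm.1.2 n hn hm.1.1
    have h3 : n < m := lt_of_le_of_ne (by omega) (fun e => hm.1.1 e.symm)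
    rwa [abs_of_pos (by linarith)] at this) (by
    intro m hm m' hm' hne
    rw [Finset.mem_filter, Finset.mem_erase] at hm hm'
    have := h m hm.1.2 m' hm'.1.2 hne
    have e : (m - n) - (m' - n) = (m - m') := by ring
    rw [e]
    exact this)
  have h3 : ∑ m ∈ (s.erase n).filter (fun m => ¬ m < n), (1:ℝ) / ((n - m : ℤ) : ℝ) ^ 2 =
      ∑ m ∈ (s.erase n).filter (fun m => ¬ m < n), (1:ℝ) / ((m - n : ℤ) : ℝ) ^ 2 := by
    apply Finset.sum_congr rfl
    intro m _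
    push_cast
    congr 1
    ring
  rw [h3]
  have h4 : (4:ℝ) / (g:ℝ) ^ 2 = 2 / (g:ℝ) ^ 2 + 2 / (g:ℝ) ^ 2 := by ring
  rw [h4]
  exact add_le_add h1 h2

/-- `∫_0^T e^{iyt} dt`. -/
noncomputable def J (T y : ℝ) : ℂ := ∫ t in (0:ℝ)..T, Complex.exp ((y : ℂ) * I * (t : ℂ))

theorem J_eq {T y : ℝ} (hy : y ≠ 0) :
    J T y = (Complex.exp ((y : ℂ) * I * (T : ℂ)) - 1) / ((y : ℂ) * I) := by
  unfold J
  have hc : (y : ℂ) * I ≠ 0 := mul_ne_zero (by exact_mod_cast hy) I_ne_zero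
  rw [integral_exp_mul_complex hc]
  simp

theorem kernel_eq {q : ℤ} (T : ℝ) (l : ℤ) :
    ∫ t in (0:ℝ)..T, ((Real.sin (Real.pi * t / T) ^ 2 : ℝ) : ℂ) * E q l t =
      1 / 2 * J T ((l:ℝ) / q) - 1 / 4 * J T ((l:ℝ) / q + 2 * Real.pi / T) -
        1 / 4 * J T ((l:ℝ) / q - 2 * Real.pi / T) := by
  unfold J
  rw [← intervalIntegral.integral_const_mul, ← intervalIntegral.integral_const_mul,
    ← intervalIntegral.integral_const_mul, ← intervalIntegral.integral_sub,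
    ← intervalIntegral.integral_sub]
  · apply intervalIntegral.integral_congr
    intro t _
    simp only
    have h1 : ((Real.sin (Real.pi * t / T) ^ 2 : ℝ) : ℂ) =
        1 / 2 - 1 / 4 * Complex.exp (((2 * Real.pi / T * t : ℝ) : ℂ) * I) -
          1 / 4 * Complex.exp (-((2 * Real.pi / T * t : ℝ) : ℂ) * I) := by
      have h2 : Real.sin (Real.pi * t / T) ^ 2 = 1 / 2 - Real.cos (2 * Real.pi / T * t) / 2 := by
        have h3 : 2 * Real.pi / T * t = 2 * (Real.pi * t / T) := by ring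
        rw [h3, Real.cos_two_mul, Real.cos_sq']
        ring
      rw [h2]
      push_cast
      rw [Complex.cos]
      ring
    rw [h1]
    unfold E
    rw [sub_mul, sub_mul, mul_assoc, mul_assoc, ← Complex.exp_add, ← Complex.exp_add]
    congr 1
    · congr 1
      · congr 1
        congr 1
        push_cast
        ring
      · congr 1
        congr 1
        push_cast
        ring
    · congr 1
      congr 1
      push_cast
      ring
  · apply Continuous.intervalIntegrable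
    fun_prop
  · apply Continuous.intervalIntegrable
    fun_prop
  · apply Continuous.intervalIntegrable
    fun_prop
  · apply Continuous.intervalIntegrable
    fun_prop

theorem kernel_zero {q : ℤ} {T : ℝ} (hT : 0 < T) :
    ∫ t in (0:ℝ)..T, ((Real.sin (Real.pi * t / T) ^ 2 : ℝ) : ℂ) * E q 0 t = (T / 2 : ℝ) := by
  have hpi := Real.pi_pos
  rw [kernel_eq]
  have h0 : J T (((0:ℤ):ℝ) / q) = T := by
    unfold J
    simp
  have hw : 2 * Real.pi / T ≠ 0 := by positivity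
  have h1 : J T (((0:ℤ):ℝ) / q + 2 * Real.pi / T) = 0 := by
    have e : ((0:ℤ):ℝ) / q + 2 * Real.pi / T = 2 * Real.pi / T := by simp
    rw [e, J_eq hw]
    have h2 : ((2 * Real.pi / T : ℝ) : ℂ) * I * (T : ℂ) = 2 * Real.pi * I := by
      have hTc : (T : ℂ) ≠ 0 := by exact_mod_cast hT.ne'
      push_cast
      field_simp
    rw [h2, Complex.exp_two_pi_mul_I]
    simp
  have h2 : J T (((0:ℤ):ℝ) / q - 2 * Real.pi / T) = 0 := by
    have e : ((0:ℤ):ℝ) / q - 2 * Real.pi / T = -(2 * Real.pi / T) := by simp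
    rw [e, J_eq (neg_ne_zero.2 hw)]
    have h2 : ((-(2 * Real.pi / T) : ℝ) : ℂ) * I * (T : ℂ) = -(2 * Real.pi * I) := by
      have hTc : (T : ℂ) ≠ 0 := by exact_mod_cast hT.ne'
      push_cast
      field_simp
    rw [h2, Complex.exp_neg, Complex.exp_two_pi_mul_I]
    simp
  rw [h0, h1, h2]
  push_cast
  ring

theorem kernel_bound {q : ℤ} {T : ℝ} (hT : 0 < T) {l : ℤ}
    (hl : 2 * (2 * Real.pi / T) ≤ |(l:ℝ) / q|) :
    ‖∫ t in (0:ℝ)..T, ((Real.sin (Real.pi * t / T) ^ 2 : ℝ) : ℂ) * E q l t‖ ≤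
      2 / 3 * (2 * Real.pi / T) / ((l:ℝ) / q) ^ 2 := by
  have hpi := Real.pi_pos
  rw [kernel_eq]
  set x : ℝ := (l:ℝ) / q with hx
  set w : ℝ := 2 * Real.pi / T with hw
  have hwpos : 0 < w := by positivity
  have hxabs : 0 < |x| := by linarith
  have hx0 : x ≠ 0 := abs_pos.1 hxabs
  have hxsq : 4 * w ^ 2 ≤ x ^ 2 := by
    rw [← sq_abs x]
    nlinarith
  have hxp : x + w ≠ 0 := by
    intro h
    have : x = -w := by linarith
    rw [this] at hxsq
    nlinarith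
  have hxm : x - w ≠ 0 := by
    intro h
    have : x = w := by linarith
    rw [this] at hxsq
    nlinarith
  rw [J_eq hx0, J_eq hxp, J_eq hxm]
  have hTc : (T : ℂ) ≠ 0 := by exact_mod_cast hT.ne'
  have e1 : Complex.exp (((x + w : ℝ) : ℂ) * I * (T : ℂ)) = Complex.exp ((x : ℂ) * I * (T : ℂ)) := by
    have : ((x + w : ℝ) : ℂ) * I * (T : ℂ) = (x : ℂ) * I * (T : ℂ) + 2 * Real.pi * I := by
      rw [hw]
      push_cast
      field_simp
    rw [this, Complex.exp_add, Complex.exp_two_pi_mul_I, mul_one]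
  have e2 : Complex.exp (((x - w : ℝ) : ℂ) * I * (T : ℂ)) = Complex.exp ((x : ℂ) * I * (T : ℂ)) := by
    have : ((x - w : ℝ) : ℂ) * I * (T : ℂ) = (x : ℂ) * I * (T : ℂ) + -(2 * Real.pi * I) := by
      rw [hw]
      push_cast
      field_simp
      ring
    rw [this, Complex.exp_add, Complex.exp_neg, Complex.exp_two_pi_mul_I, inv_one, mul_one]
  rw [e1, e2]
  set z := Complex.exp ((x : ℂ) * I * (T : ℂ)) with hz
  have hxc : (x : ℂ) ≠ 0 := by exact_mod_cast hx0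
  have hxpc : ((x + w : ℝ) : ℂ) ≠ 0 := by exact_mod_cast hxp
  have hxmc : ((x - w : ℝ) : ℂ) ≠ 0 := by exact_mod_cast hxm
  have e3 : 1 / 2 * ((z - 1) / ((x : ℂ) * I)) - 1 / 4 * ((z - 1) / (((x + w : ℝ) : ℂ) * I)) -
      1 / 4 * ((z - 1) / (((x - w : ℝ) : ℂ) * I)) =
      (z - 1) / I * ((1 / (2 * x) - 1 / (4 * (x + w)) - 1 / (4 * (x - w)) : ℝ) : ℂ) := by
    push_cast
    have hxpc' : (x : ℂ) + w ≠ 0 := by exact_mod_cast hxp
    have hxmc' : (x : ℂ) - w ≠ 0 := by exact_mod_cast hxm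
    field_simp
  rw [e3, norm_mul, norm_div, Complex.norm_I, div_one, Complex.norm_real, Real.norm_eq_abs]
  have hz1 : ‖z - 1‖ ≤ 2 := by
    refine le_trans (norm_sub_le _ _) ?_
    have : ‖z‖ = 1 := by
      rw [hz]
      have : (x : ℂ) * I * (T : ℂ) = ((x * T : ℝ) : ℂ) * I := by push_cast; ring
      rw [this]
      exact Complex.norm_exp_ofReal_mul_I _
    rw [this, norm_one]
    norm_num
  have e4 : 1 / (2 * x) - 1 / (4 * (x + w)) - 1 / (4 * (x - w)) =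
      -(w ^ 2 / (2 * x * (x ^ 2 - w ^ 2))) := by
    have h3 : x ^ 2 - w ^ 2 ≠ 0 := by nlinarith
    have h4 : x ^ 2 - w ^ 2 = (x + w) * (x - w) := by ring
    rw [h4]
    field_simp
    ring
  have hr : |1 / (2 * x) - 1 / (4 * (x + w)) - 1 / (4 * (x - w))| ≤ 1 / 3 * w / x ^ 2 := by
    rw [e4, abs_neg, abs_div, abs_mul, abs_mul]
    have h3 : 0 < x ^ 2 - w ^ 2 := by nlinarith
    rw [abs_of_pos h3, abs_of_nonneg (sq_nonneg w), abs_of_pos (show (0:ℝ) < 2 by norm_num)]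
    rw [← sq_abs x] at hxsq h3 ⊢
    set y := |x|
    rw [div_le_div_iff₀ (by positivity) (by positivity)]
    have h5 : 2 * w ≤ y := hl
    have h6 : 0 ≤ w * y * (2 * y + w) * (y - 2 * w) :=
      mul_nonneg (by positivity) (by linarith)
    nlinarith
  calc ‖z - 1‖ * |1 / (2 * x) - 1 / (4 * (x + w)) - 1 / (4 * (x - w))| ≤
      2 * (1 / 3 * w / x ^ 2) := mul_le_mul hz1 hr (abs_nonneg _) (by norm_num)
    _ = _ := by ring

/-- Ingham type inequality for well separated frequencies. -/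
theorem tail {q : ℤ} (hq : 0 < q) {T : ℝ} (hT : 0 < T) {g : ℤ}
    (hg : 2 * (2 * Real.pi / T) * q ≤ g) (s : Finset ℤ) (A : ℤ → ℂ)
    (h : ∀ m ∈ s, ∀ m' ∈ s, m ≠ m' → g ≤ |m - m'|) :
    ∑ n ∈ s, ‖A n‖ ^ 2 ≤ 4 / T * ∫ t in (0:ℝ)..T, ‖poly q s A t‖ ^ 2 := by
  have hpi := Real.pi_pos
  have hqr : (0:ℝ) < q := by exact_mod_cast hq
  have hgr : (0:ℝ) < g := lt_of_lt_of_le (by positivity) hg
  have hgi : 0 < g := by exact_mod_cast hgr
  set w : ℝ := 2 * Real.pi / T with hw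
  have hwpos : 0 < w := by positivity
  let Kf : ℤ → ℂ := fun l =>
    ∫ t in (0:ℝ)..T, ((Real.sin (Real.pi * t / T) ^ 2 : ℝ) : ℂ) * E q l t
  let b : ℤ → ℝ := fun l => 2 / 3 * w / ((l:ℝ) / q) ^ 2
  have hs := schur s A Kf b (1 / 3 * (T / Real.pi)) (by
    intro n hn m hm hnm
    apply kernel_bound hT
    have h1 := h n hn m hm hnm
    have h2 : (g:ℝ) ≤ |((n - m : ℤ) : ℝ)| := by exact_mod_cast h1
    rw [abs_div, abs_of_pos hqr, le_div_iff₀ hqr]
    linarith) (by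
    intro l
    simp only [b]
    push_cast
    congr 1
    ring) (by
    intro n hn
    have h1 := sep_sum s hgi h n hn
    have h2 : ∑ m ∈ s.erase n, b (n - m) =
        2 / 3 * w * q ^ 2 * ∑ m ∈ s.erase n, (1:ℝ) / ((n - m : ℤ) : ℝ) ^ 2 := by
      rw [Finset.mul_sum]
      apply Finset.sum_congr rfl
      intro m hm
      rw [Finset.mem_erase] at hm
      have h3 : ((n - m : ℤ) : ℝ) ≠ 0 := by
        have : n - m ≠ 0 := sub_ne_zero.2 hm.1.symm
        exact_mod_cast this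
      simp only [b]
      field_simp
    rw [h2]
    have h3 : 2 / 3 * w * q ^ 2 * ∑ m ∈ s.erase n, (1:ℝ) / ((n - m : ℤ) : ℝ) ^ 2 ≤
        2 / 3 * w * q ^ 2 * (4 / (g:ℝ) ^ 2) := mul_le_mul_of_nonneg_left h1 (by positivity)
    refine le_trans h3 ?_
    have h4 : (2 * w * q) ^ 2 ≤ (g:ℝ) ^ 2 := pow_le_pow_left₀ (by positivity) hg 2
    have h5 : T = 2 * Real.pi / w := by rw [hw]; field_simp
    have h6 : 1 / 3 * (T / Real.pi) = 2 / 3 / w := by rw [h5]; field_simp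
    rw [h6, div_eq_mul_inv (4:ℝ), ← mul_assoc, ← div_eq_mul_inv,
      div_le_div_iff₀ (by positivity) hwpos]
    nlinarith [sq_nonneg (w * q)])
  have hexp := expand q s A (k := fun t => Real.sin (Real.pi * t / T) ^ 2) (by fun_prop) T
  have hK0 : Kf 0 = ((T / 2 : ℝ) : ℂ) := kernel_zero hT
  rw [hK0] at hs
  have e1 : ∑ n ∈ s, ∑ m ∈ s, A n * conj (A m) * Kf (n - m) =
      ((∫ t in (0:ℝ)..T, Real.sin (Real.pi * t / T) ^ 2 * ‖poly q s A t‖ ^ 2 : ℝ) : ℂ) := by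
    rw [hexp]
  rw [e1, ← Complex.ofReal_mul, ← Complex.ofReal_sub, Complex.norm_real, Real.norm_eq_abs,
    abs_le] at hs
  set S := ∑ n ∈ s, ‖A n‖ ^ 2 with hS
  have hS0 : 0 ≤ S := Finset.sum_nonneg (fun _ _ => by positivity)
  have h1 : ∫ t in (0:ℝ)..T, Real.sin (Real.pi * t / T) ^ 2 * ‖poly q s A t‖ ^ 2 ≤
      ∫ t in (0:ℝ)..T, ‖poly q s A t‖ ^ 2 := by
    apply intervalIntegral.integral_mono_on hT.le
    · apply Continuous.intervalIntegrable
      fun_prop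
    · apply Continuous.intervalIntegrable
      fun_prop
    · intro t _
      have h2 : Real.sin (Real.pi * t / T) ^ 2 ≤ 1 := Real.sin_sq_le_one _
      have h3 : 0 ≤ ‖poly q s A t‖ ^ 2 := by positivity
      nlinarith
  have h2 : 1 / 3 * (T / Real.pi) ≤ T / 4 := by
    have h3 : T / Real.pi ≤ T / 3 := by
      apply div_le_div_of_nonneg_left hT.le (by norm_num)
      exact Real.pi_gt_three.le
    linarith
  have h3 : 1 / 3 * (T / Real.pi) * S ≤ T / 4 * S := mul_le_mul_of_nonneg_right h2 hS0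
  have h4 : T / 4 * S ≤ ∫ t in (0:ℝ)..T, ‖poly q s A t‖ ^ 2 := by linarith [hs.1]
  rw [div_mul_eq_mul_div, le_div_iff₀ hT]
  linarith

end Pool.Agent.V1185.Beam
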