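import Pool.Agent.V1185.Beam.Removal

open Finset MeasureTheory intervalIntegral Complex
open scoped ComplexConjugate

namespace Pool.Agent.V1185.Beam

/-- Scaled frequencies. -/
def frp (p q k : ℤ) : ℤ := q * k ^ 2 - p * k

/-- Scaled frequencies. -/
def frm (p q k : ℤ) : ℤ := -(q * k ^ 2) - p * k

theorem sep_same {p q : ℤ} (hq : 0 < q) (hnd : ¬ q ∣ p) {g K k l : ℤ} (hg : 0 ≤ g)
    (hK : |p| + g + 1 ≤ K) (hk : K ≤ |k|) (hl : K ≤ |l|) (hkl : k ≠ l) :
    g ≤ |(k - l) * (q * (k + l) - p)| := by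
  rw [abs_mul]
  have hp := abs_nonneg p
  have hpl := neg_abs_le p
  have hpu := le_abs_self p
  have h1 : 1 ≤ |k - l| := Int.one_le_abs (sub_ne_zero.2 hkl)
  have h2 : 1 ≤ |q * (k + l) - p| := by
    apply Int.one_le_abs
    intro h
    apply hnd
    exact ⟨k + l, by linarith⟩
  have hcase : g ≤ |q * (k + l) - p| ∨ g ≤ |k - l| := by
    rcases le_abs.1 hk with h3 | h3
    · rcases le_abs.1 hl with h4 | h4
      · left
        refine le_trans ?_ (le_abs_self _)
        nlinarith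
      · right
        refine le_trans ?_ (le_abs_self _)
        linarith
    · rcases le_abs.1 hl with h4 | h4
      · right
        refine le_trans ?_ (neg_le_abs _)
        linarith
      · left
        refine le_trans ?_ (neg_le_abs _)
        nlinarith
  rcases hcase with h | h <;> nlinarith

theorem sep_cross {p q : ℤ} (hq : 0 < q) {g K k l : ℤ} (hg : 0 ≤ g)
    (hK : |p| + g + 1 ≤ K) (hk : K ≤ |k|) (hl : K ≤ |l|) :
    g ≤ |frp p q k - frm p q l| := by
  refine le_trans ?_ (le_abs_self _)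
  unfold frp frm
  have hp := abs_nonneg p
  have h1 : p * k ≤ |p| * |k| := by rw [← abs_mul]; exact le_abs_self _
  have h2 : -(p * l) ≤ |p| * |l| := by rw [← abs_mul]; exact neg_le_abs _
  have h3 : |k| ^ 2 = k ^ 2 := sq_abs k
  have h4 : |l| ^ 2 = l ^ 2 := sq_abs l
  have h5 : k ^ 2 ≤ q * k ^ 2 := by nlinarith [sq_nonneg k]
  have h6 : l ^ 2 ≤ q * l ^ 2 := by nlinarith [sq_nonneg l]
  have h7 : |k| ≤ |k| ^ 2 - |p| * |k| := by nlinarith [abs_nonneg k]
  have h8 : |l| ≤ |l| ^ 2 - |p| * |l| := by nlinarith [abs_nonneg l]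
  nlinarith

theorem frp_inj {p q : ℤ} (hnd : ¬ q ∣ p) {k l : ℤ} (h : frp p q k = frp p q l) : k = l := by
  unfold frp at h
  have h1 : (k - l) * (q * (k + l) - p) = 0 := by linarith
  rcases mul_eq_zero.1 h1 with h2 | h2
  · linarith
  · exact absurd ⟨k + l, by linarith⟩ hnd

theorem frm_inj {p q : ℤ} (hnd : ¬ q ∣ p) {k l : ℤ} (h : frm p q k = frm p q l) : k = l := by
  unfold frm at h
  have h1 : (k - l) * (q * (k + l) + p) = 0 := by linarith
  rcases mul_eq_zero.1 h1 with h2 | h2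
  · linarith
  · exact absurd ⟨-(k + l), by linarith⟩ hnd

theorem fr_cross {p q : ℤ} (hq : 0 < q) {k l R : ℤ} (hR : 2 * |p| ≤ R)
    (h : frp p q k = frm p q l) : |k| ≤ R ∧ |l| ≤ R := by
  unfold frp frm at h
  have hp := abs_nonneg p
  have h1 : p * k ≤ |p| * |k| := by rw [← abs_mul]; exact le_abs_self _
  have h2 : -(p * l) ≤ |p| * |l| := by rw [← abs_mul]; exact neg_le_abs _
  have h3 : |k| ^ 2 = k ^ 2 := sq_abs k
  have h4 : |l| ^ 2 = l ^ 2 := sq_abs l
  have h5 : k ^ 2 ≤ q * k ^ 2 := by nlinarith [sq_nonneg k]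
  have h6 : l ^ 2 ≤ q * l ^ 2 := by nlinarith [sq_nonneg l]
  have h7 : |k| ^ 2 + |l| ^ 2 ≤ |p| * |k| + |p| * |l| := by linarith
  have hk0 := abs_nonneg k
  have hl0 := abs_nonneg l
  constructor
  · by_contra hc
    push Not at hc
    nlinarith [sq_nonneg (|p| - 2 * |l|), sq_nonneg (|k| - 2 * |p|)]
  · by_contra hc
    push Not at hc
    nlinarith [sq_nonneg (|p| - 2 * |k|), sq_nonneg (|l| - 2 * |p|)]

/-- All frequencies of a segment. -/
def Fr (p q : ℤ) : Set ℤ := {n | ∃ k, n = frp p q k ∨ n = frm p q k}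

theorem obs_all {p q : ℤ} (hq : 0 < q) (hnd : ¬ q ∣ p) {T : ℝ} (hT : 0 < T) :
    Obs q (Fr p q) T := by
  classical
  have hqr : (0:ℝ) < q := by exact_mod_cast hq
  have hpi := Real.pi_pos
  have hT2 : 0 < T / 2 := by linarith
  set g : ℤ := ⌈2 * (2 * Real.pi / (T / 2)) * q⌉ with hg
  have hg1 : 2 * (2 * Real.pi / (T / 2)) * q ≤ g := Int.le_ceil _
  have hg0 : 0 ≤ g := by
    have : (0:ℝ) < g := lt_of_lt_of_le (by positivity) hg1
    exact_mod_cast this.le
  set K : ℤ := |p| + g + 1 with hK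
  let B : Set ℤ := {n | ∃ k, K ≤ |k| ∧ (n = frp p q k ∨ n = frm p q k)}
  have hnd' : ¬ q ∣ -p := fun h => hnd (by simpa using h)
  have hB : Obs q B (T / 2) := by
    refine ⟨4 / (T / 2), by positivity, ?_⟩
    intro s hs A
    apply tail hq hT2 hg1
    intro m hm m' hm' hne
    obtain ⟨k, hk, hk'⟩ := hs m hm
    obtain ⟨l, hl, hl'⟩ := hs m' hm'
    rcases hk' with rfl | rfl
    · rcases hl' with rfl | rfl
      · have hkl : k ≠ l := fun e => hne (by rw [e])
        have h1 := sep_same hq hnd hg0 le_rfl hk hl hkl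
        have h2 : frp p q k - frp p q l = (k - l) * (q * (k + l) - p) := by
          unfold frp; ring
        rw [h2]; exact h1
      · exact sep_cross hq hg0 le_rfl hk hl
    · rcases hl' with rfl | rfl
      · rw [abs_sub_comm]
        exact sep_cross hq hg0 le_rfl hl hk
      · have hkl : k ≠ l := fun e => hne (by rw [e])
        have h1 := sep_same hq hnd' hg0 (by rw [abs_neg]) hk hl hkl
        have h2 : frm p q k - frm p q l = -((k - l) * (q * (k + l) - -p)) := by
          unfold frm; ring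
        rw [h2, abs_neg]; exact h1
  let F : Finset ℤ := (Finset.Icc (-K) K).image (frp p q) ∪ (Finset.Icc (-K) K).image (frm p q)
  obtain ⟨C, hC, hobs⟩ := obs_union hq hT2 hB F T (by linarith)
  refine ⟨C, hC, ?_⟩
  intro s hs A
  apply hobs
  intro n hn
  obtain ⟨k, hk⟩ := hs n hn
  by_cases h : K ≤ |k|
  · left
    exact ⟨k, h, hk⟩
  · right
    push Not at h
    have hkI : k ∈ Finset.Icc (-K) K := by
      rw [Finset.mem_Icc]
      have := abs_lt.1 h
      constructor <;> linarith [this.1, this.2]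
    simp only [F, Finset.coe_union, Set.mem_union, Finset.mem_coe, Finset.mem_image]
    rcases hk with rfl | rfl
    · left; exact ⟨k, hkI, rfl⟩
    · right; exact ⟨k, hkI, rfl⟩

/-- Coefficient of the `+` exponential along a segment. -/
noncomputable def cop (t₁ x₁ : ℝ) (cp cm : ℤ → ℂ) (k : ℤ) : ℂ :=
  if k = 0 then cp 0 + cm 0 * t₁
  else cp k * Complex.exp ((((k : ℝ) ^ 2 * t₁ + k * x₁ : ℝ) : ℂ) * I)

/-- Coefficient of the `-` exponential along a segment. -/
noncomputable def com (t₁ x₁ : ℝ) (cm : ℤ → ℂ) (k : ℤ) : ℂ :=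
  if k = 0 then 0 else cm k * Complex.exp (((-(k : ℝ) ^ 2 * t₁ + k * x₁ : ℝ) : ℂ) * I)

/-- Mode of the beam equation. -/
noncomputable def mode (cp cm : ℤ → ℂ) (k : ℤ) (t x : ℝ) : ℂ :=
  if k = 0 then cp 0 + cm 0 * t
  else (cp k * Complex.exp (I * ((k : ℂ) ^ 2 * t)) + cm k * Complex.exp (-(I * ((k : ℂ) ^ 2 * t)))) *
    Complex.exp (I * (k * x))

/-- Finite sums of modes. -/
noncomputable def sol (K : Finset ℤ) (cp cm : ℤ → ℂ) (t x : ℝ) : ℂ :=
  ∑ k ∈ K, mode cp cm k t x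

theorem mode_seg {p q : ℤ} (hq : 0 < q) (t₁ x₁ : ℝ) (cp cm : ℤ → ℂ) (k : ℤ) (t : ℝ) :
    mode cp cm k (t₁ + t) (x₁ - (p : ℝ) / q * t) =
      cop t₁ x₁ cp cm k * E q (frp p q k) t + com t₁ x₁ cm k * E q (frm p q k) t +
        if k = 0 then cm 0 * t else 0 := by
  have hqc : (q : ℂ) ≠ 0 := by exact_mod_cast hq.ne'
  unfold mode cop com
  by_cases hk : k = 0
  · subst hk
    simp only [if_true]
    have h1 : frp p q 0 = 0 := by unfold frp; ring
    have h2 : frm p q 0 = 0 := by unfold frm; ring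
    rw [h1, h2, E_zero]
    push_cast
    ring
  · simp only [if_neg hk, add_zero]
    unfold E frp frm
    rw [add_mul, mul_assoc, mul_assoc, mul_assoc, mul_assoc, ← Complex.exp_add,
      ← Complex.exp_add, ← Complex.exp_add, ← Complex.exp_add]
    congr 1
    · congr 1
      congr 1
      push_cast
      field_simp
      ring
    · congr 1
      congr 1
      push_cast
      field_simp
      ring

/-- Amplitude of the frequency `n`. -/
noncomputable def amp (p q : ℤ) (K : Finset ℤ) (u v : ℤ → ℂ) (n : ℤ) : ℂ :=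
  ∑ k ∈ K.filter (fun k => frp p q k = n), u k + ∑ k ∈ K.filter (fun k => frm p q k = n), v k

/-- The set of frequencies. -/
def frs (p q : ℤ) (K : Finset ℤ) : Finset ℤ := K.image (frp p q) ∪ K.image (frm p q)

theorem sol_seg {p q : ℤ} (hq : 0 < q) (t₁ x₁ : ℝ) (cp cm : ℤ → ℂ) {K : Finset ℤ}
    (h0 : (0:ℤ) ∈ K) (t : ℝ) :
    sol K cp cm (t₁ + t) (x₁ - (p : ℝ) / q * t) =
      poly q (frs p q K) (amp p q K (cop t₁ x₁ cp cm) (com t₁ x₁ cm)) t + cm 0 * t := by
  unfold sol
  simp only [mode_seg hq]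
  rw [Finset.sum_add_distrib, Finset.sum_add_distrib, Finset.sum_ite_eq' K 0 (fun _ => cm 0 * (t:ℂ)),
    if_pos h0]
  congr 1
  unfold poly amp
  simp only [add_mul, Finset.sum_mul]
  rw [Finset.sum_add_distrib]
  congr 1
  · rw [← Finset.sum_fiberwise_of_maps_to (s := K) (t := frs p q K) (g := frp p q)
      (f := fun k => cop t₁ x₁ cp cm k * E q (frp p q k) t)]
    · apply Finset.sum_congr rfl
      intro n _
      apply Finset.sum_congr rfl
      intro k hk
      rw [Finset.mem_filter] at hk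
      rw [hk.2]
    · intro k hk
      exact Finset.mem_union_left _ (Finset.mem_image_of_mem _ hk)
  · rw [← Finset.sum_fiberwise_of_maps_to (s := K) (t := frs p q K) (g := frm p q)
      (f := fun k => com t₁ x₁ cm k * E q (frm p q k) t)]
    · apply Finset.sum_congr rfl
      intro n _
      apply Finset.sum_congr rfl
      intro k hk
      rw [Finset.mem_filter] at hk
      rw [hk.2]
    · intro k hk
      exact Finset.mem_union_right _ (Finset.mem_image_of_mem _ hk)

/-- One-segment inequality. -/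
theorem seg_ineq {p q : ℤ} (hq : 0 < q) (hnd : ¬ q ∣ p) (t₁ x₁ : ℝ) {T : ℝ} (hT : 0 < T) :
    ∃ C : ℝ, 0 < C ∧ ∀ (K : Finset ℤ), (0:ℤ) ∈ K → ∀ cp cm : ℤ → ℂ,
      ∑ n ∈ frs p q K, ‖amp p q K (cop t₁ x₁ cp cm) (com t₁ x₁ cm) n‖ ^ 2 + ‖cm 0‖ ^ 2 ≤
        C * ∫ t in (0:ℝ)..T, ‖sol K cp cm (t₁ + t) (x₁ - (p : ℝ) / q * t)‖ ^ 2 := by
  obtain ⟨C, hC, h⟩ := obs_linear hq (B := Fr p q) (T' := T / 2) (T := T) (by linarith)
    (by linarith) (obs_all hq hnd (by linarith))
  refine ⟨C, hC, ?_⟩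
  intro K h0 cp cm
  simp only [sol_seg hq t₁ x₁ cp cm h0]
  apply h
  · intro n hn
    rw [frs, Finset.mem_union, Finset.mem_image, Finset.mem_image] at hn
    rcases hn with ⟨k, _, hk⟩ | ⟨k, _, hk⟩
    · exact ⟨k, Or.inl hk.symm⟩
    · exact ⟨k, Or.inr hk.symm⟩
  · rw [frs, Finset.mem_union, Finset.mem_image]
    left
    exact ⟨0, h0, by unfold frp; ring⟩

end Pool.Agent.V1185.Beam
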