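import Pool.Agent.V1185.Beam.Expo

open Finset MeasureTheory intervalIntegral Complex
open scoped ComplexConjugate

namespace Pool.Agent.V1185.Beam

theorem cauchy {φ : ℝ → ℝ} (hφ : Continuous φ) {δ : ℝ} (hδ : 0 < δ) :
    (∫ s in (0:ℝ)..δ, φ s) ^ 2 ≤ δ * ∫ s in (0:ℝ)..δ, φ s ^ 2 := by
  set M := ∫ s in (0:ℝ)..δ, φ s with hM
  have h1 : 0 ≤ ∫ s in (0:ℝ)..δ, (φ s - M / δ) ^ 2 :=
    intervalIntegral.integral_nonneg hδ.le (fun _ _ => sq_nonneg _)
  have h2 : ∫ s in (0:ℝ)..δ, (φ s - M / δ) ^ 2 =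
      (∫ s in (0:ℝ)..δ, φ s ^ 2) - 2 * (M / δ) * M + (M / δ) ^ 2 * δ := by
    have h3 : ∀ s, (φ s - M / δ) ^ 2 = φ s ^ 2 - 2 * (M / δ) * φ s + (M / δ) ^ 2 := by
      intro s; ring
    simp only [h3]
    rw [intervalIntegral.integral_add, intervalIntegral.integral_sub,
      intervalIntegral.integral_const_mul, intervalIntegral.integral_const]
    · simp only [sub_zero, smul_eq_mul]
      rw [← hM]; ring
    · apply Continuous.intervalIntegrable; fun_prop
    · apply Continuous.intervalIntegrable; fun_prop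
    · apply Continuous.intervalIntegrable; fun_prop
    · apply Continuous.intervalIntegrable; fun_prop
  rw [h2] at h1
  have h4 : 2 * (M / δ) * M - (M / δ) ^ 2 * δ = M ^ 2 / δ := by
    field_simp
    ring
  have h5 : M ^ 2 / δ ≤ ∫ s in (0:ℝ)..δ, φ s ^ 2 := by linarith
  rw [div_le_iff₀ hδ] at h5
  linarith

theorem avg_est {h k : ℝ → ℂ} (hh : Continuous h) (hk : Continuous k) {q m : ℤ} {δ T : ℝ}
    (hδ : 0 < δ) (hδT : δ ≤ T)
    (hkh : ∀ t, k t = h t - ((1 / δ : ℝ) : ℂ) * ∫ s in (0:ℝ)..δ, E q (-m) s * h (t + s)) :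
    ∫ t in (0:ℝ)..(T - δ), ‖k t‖ ^ 2 ≤ (2 + 2 * T / δ) * ∫ t in (0:ℝ)..T, ‖h t‖ ^ 2 := by
  set I := ∫ t in (0:ℝ)..T, ‖h t‖ ^ 2 with hI
  have hT : 0 < T := lt_of_lt_of_le hδ hδT
  have hI0 : 0 ≤ I := intervalIntegral.integral_nonneg hT.le (fun _ _ => by positivity)
  have hpt : ∀ t ∈ Set.Icc (0:ℝ) (T - δ), ‖k t‖ ^ 2 ≤ 2 * ‖h t‖ ^ 2 + 2 * I / δ := by
    intro t ht
    have h1 : ‖∫ s in (0:ℝ)..δ, E q (-m) s * h (t + s)‖ ≤ ∫ s in (0:ℝ)..δ, ‖h (t + s)‖ := by
      refine le_trans (intervalIntegral.norm_integral_le_integral_norm hδ.le) (le_of_eq ?_)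
      apply intervalIntegral.integral_congr
      intro s _
      simp only
      rw [norm_mul, E_norm, one_mul]
    have h2 : (∫ s in (0:ℝ)..δ, ‖h (t + s)‖) ^ 2 ≤ δ * ∫ s in (0:ℝ)..δ, ‖h (t + s)‖ ^ 2 :=
      cauchy (by fun_prop) hδ
    have h3 : ∫ s in (0:ℝ)..δ, ‖h (t + s)‖ ^ 2 ≤ I := by
      rw [intervalIntegral.integral_comp_add_left (fun r => ‖h r‖ ^ 2) t]
      apply intervalIntegral.integral_mono_interval
      · linarith [ht.1]
      · linarith
      · linarith [ht.2]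
      · exact Filter.Eventually.of_forall (fun t => by positivity)
      · apply Continuous.intervalIntegrable; fun_prop
    have h4 : ‖∫ s in (0:ℝ)..δ, E q (-m) s * h (t + s)‖ ^ 2 ≤ δ * I := by
      calc _ ≤ (∫ s in (0:ℝ)..δ, ‖h (t + s)‖) ^ 2 := pow_le_pow_left₀ (norm_nonneg _) h1 2
        _ ≤ _ := h2
        _ ≤ _ := mul_le_mul_of_nonneg_left h3 hδ.le
    have h5 : ‖((1 / δ : ℝ) : ℂ) * ∫ s in (0:ℝ)..δ, E q (-m) s * h (t + s)‖ ^ 2 ≤ I / δ := by
      rw [norm_mul, Complex.norm_real, Real.norm_eq_abs, abs_of_pos (by positivity), mul_pow]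
      calc (1 / δ) ^ 2 * ‖∫ s in (0:ℝ)..δ, E q (-m) s * h (t + s)‖ ^ 2 ≤
          (1 / δ) ^ 2 * (δ * I) := mul_le_mul_of_nonneg_left h4 (by positivity)
        _ = I / δ := by field_simp
    rw [hkh]
    have h6 := norm_sub_le (h t) (((1 / δ : ℝ) : ℂ) * ∫ s in (0:ℝ)..δ, E q (-m) s * h (t + s))
    set a := ‖h t‖
    set b := ‖((1 / δ : ℝ) : ℂ) * ∫ s in (0:ℝ)..δ, E q (-m) s * h (t + s)‖
    have h7 : ‖h t - ((1 / δ : ℝ) : ℂ) * ∫ s in (0:ℝ)..δ, E q (-m) s * h (t + s)‖ ^ 2 ≤
        (a + b) ^ 2 := pow_le_pow_left₀ (norm_nonneg _) h6 2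
    have h8 : (a + b) ^ 2 ≤ 2 * a ^ 2 + 2 * b ^ 2 := by nlinarith [sq_nonneg (a - b)]
    have h9 : 2 * I / δ = 2 * (I / δ) := by ring
    rw [h9]
    linarith
  calc ∫ t in (0:ℝ)..(T - δ), ‖k t‖ ^ 2 ≤ ∫ t in (0:ℝ)..(T - δ), (2 * ‖h t‖ ^ 2 + 2 * I / δ) := by
        apply intervalIntegral.integral_mono_on (by linarith)
        · apply Continuous.intervalIntegrable; fun_prop
        · apply Continuous.intervalIntegrable; fun_prop
        · exact hpt
    _ = 2 * (∫ t in (0:ℝ)..(T - δ), ‖h t‖ ^ 2) + (T - δ) * (2 * I / δ) := by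
        rw [intervalIntegral.integral_add, intervalIntegral.integral_const_mul,
          intervalIntegral.integral_const]
        · simp
        · apply Continuous.intervalIntegrable; fun_prop
        · apply Continuous.intervalIntegrable; fun_prop
    _ ≤ 2 * I + T * (2 * I / δ) := by
        have h1 : ∫ t in (0:ℝ)..(T - δ), ‖h t‖ ^ 2 ≤ I := by
          apply intervalIntegral.integral_mono_interval le_rfl (by linarith) (by linarith)
          · exact Filter.Eventually.of_forall (fun t => by positivity)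
          · apply Continuous.intervalIntegrable; fun_prop
        have h2 : (T - δ) * (2 * I / δ) ≤ T * (2 * I / δ) :=
          mul_le_mul_of_nonneg_right (by linarith) (by positivity)
        linarith
    _ = _ := by ring

/-- Multiplier of the averaging operator. -/
noncomputable def theta (q : ℤ) (δ : ℝ) (l : ℤ) : ℂ :=
  1 - ((1 / δ : ℝ) : ℂ) * ∫ s in (0:ℝ)..δ, E q l s

theorem theta_zero (q : ℤ) {δ : ℝ} (hδ : 0 < δ) : theta q δ 0 = 0 := by
  unfold theta
  simp only [E_zero]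
  have : (δ : ℂ) ≠ 0 := by exact_mod_cast hδ.ne'
  simp [this]

theorem theta_lower {q : ℤ} (hq : 0 < q) {δ : ℝ} (hδ : 0 < δ) {l : ℤ} (hl : l ≠ 0) :
    min (1 / 2) (2 / Real.pi ^ 2 * (δ / q)) ≤ ‖theta q δ l‖ := by
  have hqr : (0:ℝ) < q := by exact_mod_cast hq
  have hpi := Real.pi_pos
  have hlr : (l : ℝ) ≠ 0 := by exact_mod_cast hl
  set x : ℝ := (l:ℝ) / q with hx
  have hx0 : x ≠ 0 := div_ne_zero hlr hqr.ne'
  set y : ℝ := x * δ with hy
  have hy0 : y ≠ 0 := mul_ne_zero hx0 hδ.ne'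
  have hJ : ∫ s in (0:ℝ)..δ, E q l s = J δ x := by
    unfold J E
    apply intervalIntegral.integral_congr
    intro s _
    simp only
    congr 1
    push_cast
    rw [hx]
    push_cast
    ring
  have hth : theta q δ l =
      ((1 - Real.sin y / y : ℝ) : ℂ) + (((Real.cos y - 1) / y : ℝ) : ℂ) * I := by
    unfold theta
    rw [hJ, J_eq hx0]
    have h1 : (x : ℂ) * I * (δ : ℂ) = (y : ℂ) * I := by rw [hy]; push_cast; ring
    rw [h1, Complex.exp_mul_I, ← Complex.ofReal_cos, ← Complex.ofReal_sin]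
    have hxc : (x : ℂ) ≠ 0 := by exact_mod_cast hx0
    have hδc : (δ : ℂ) ≠ 0 := by exact_mod_cast hδ.ne'
    rw [hy]
    push_cast
    field_simp
    ring_nf
    rw [Complex.I_sq]
    ring
  have hre : (theta q δ l).re = 1 - Real.sin y / y := by
    rw [hth, Complex.add_re, Complex.ofReal_re, Complex.re_ofReal_mul, Complex.I_re, mul_zero,
      add_zero]
  have him : (theta q δ l).im = (Real.cos y - 1) / y := by
    rw [hth, Complex.add_im, Complex.ofReal_im, Complex.im_ofReal_mul, Complex.I_im, mul_one,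
      zero_add]
  have hyabs : 0 < |y| := abs_pos.2 hy0
  have hy1 : δ / q ≤ |y| := by
    rw [hy, hx, abs_mul, abs_div, abs_of_pos hqr, abs_of_pos hδ]
    have : (1:ℝ) ≤ |(l:ℝ)| := by
      have := Int.one_le_abs hl
      exact_mod_cast this
    rw [div_mul_eq_mul_div]
    apply div_le_div_of_nonneg_right _ hqr.le
    nlinarith
  by_cases h2 : 2 ≤ |y|
  · refine le_trans (min_le_left _ _) ?_
    refine le_trans ?_ (Complex.abs_re_le_norm _)
    rw [hre]
    have h3 : |Real.sin y / y| ≤ 1 / 2 := by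
      rw [abs_div, div_le_iff₀ hyabs]
      have := Real.abs_sin_le_one y
      linarith
    have h4 := abs_le.1 h3
    rw [abs_of_nonneg (by linarith)]
    linarith
  · push Not at h2
    refine le_trans (min_le_right _ _) ?_
    refine le_trans ?_ (Complex.abs_im_le_norm _)
    rw [him, abs_div]
    have h3 : Real.cos y ≤ 1 - 2 / Real.pi ^ 2 * y ^ 2 :=
      Real.cos_le_one_sub_mul_cos_sq (by linarith [Real.pi_gt_three])
    have h4 : 2 / Real.pi ^ 2 * y ^ 2 ≤ |Real.cos y - 1| := by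
      rw [abs_of_nonpos (by linarith [Real.cos_le_one y])]
      linarith
    rw [le_div_iff₀ hyabs]
    calc 2 / Real.pi ^ 2 * (δ / q) * |y| ≤ 2 / Real.pi ^ 2 * |y| * |y| := by
          apply mul_le_mul_of_nonneg_right _ hyabs.le
          exact mul_le_mul_of_nonneg_left hy1 (by positivity)
      _ = 2 / Real.pi ^ 2 * y ^ 2 := by rw [mul_assoc, abs_mul_abs_self]; ring
      _ ≤ _ := h4

theorem avg_poly (q m : ℤ) (δ : ℝ) (s : Finset ℤ) (A : ℤ → ℂ) (t : ℝ) :
    ((1 / δ : ℝ) : ℂ) * ∫ r in (0:ℝ)..δ, E q (-m) r * poly q s A (t + r) =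
      poly q s A t - poly q s (fun n => A n * theta q δ (n - m)) t := by
  have h1 : ∀ r, E q (-m) r * poly q s A (t + r) = ∑ n ∈ s, A n * E q n t * E q (n - m) r := by
    intro r
    unfold poly
    rw [Finset.mul_sum]
    apply Finset.sum_congr rfl
    intro n _
    rw [E_add, sub_eq_add_neg, ← E_mul]
    ring
  simp only [h1]
  rw [intervalIntegral.integral_finsetSum]
  · unfold poly
    rw [Finset.mul_sum, ← Finset.sum_sub_distrib]
    apply Finset.sum_congr rfl
    intro n _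
    rw [intervalIntegral.integral_const_mul]
    unfold theta
    ring
  · intro n _
    apply Continuous.intervalIntegrable
    fun_prop

/-- Observability inequality for a set of frequencies. -/
def Obs (q : ℤ) (B : Set ℤ) (T : ℝ) : Prop :=
  ∃ C : ℝ, 0 < C ∧ ∀ s : Finset ℤ, (∀ n ∈ s, n ∈ B) → ∀ A : ℤ → ℂ,
    ∑ n ∈ s, ‖A n‖ ^ 2 ≤ C * ∫ t in (0:ℝ)..T, ‖poly q s A t‖ ^ 2

theorem obs_insert {q : ℤ} (hq : 0 < q) {B : Set ℤ} (m : ℤ) {T' T : ℝ} (hT' : 0 < T')
    (hTT : T' < T) (h : Obs q B T') : Obs q (insert m B) T := by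
  obtain ⟨C, hC, hB⟩ := h
  have hT : 0 < T := by linarith
  have hqr : (0:ℝ) < q := by exact_mod_cast hq
  have hpi := Real.pi_pos
  set δ := T - T' with hδ'
  have hδ : 0 < δ := by linarith
  have hδT : δ ≤ T := by linarith
  set κ := min (1 / 2) (2 / Real.pi ^ 2 * (δ / q)) with hκ'
  have hκ : 0 < κ := lt_min (by norm_num) (by positivity)
  obtain ⟨L, hL, hdir⟩ := direct hq T hT
  set C1 := C * (2 + 2 * T / δ) / κ ^ 2 with hC1'
  have hC1 : 0 < C1 := by positivity
  refine ⟨C1 + (2 + 2 * L * C1) / T, by positivity, ?_⟩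
  intro s hs A
  set I := ∫ t in (0:ℝ)..T, ‖poly q s A t‖ ^ 2 with hI
  have hI0 : 0 ≤ I := intervalIntegral.integral_nonneg hT.le (fun _ _ => by positivity)
  have hs' : ∀ n ∈ s.erase m, n ∈ B := by
    intro n hn
    rw [Finset.mem_erase] at hn
    rcases hs n hn.2 with h1 | h1
    · exact absurd h1 hn.1
    · exact h1
  have hk : ∀ t, poly q (s.erase m) (fun n => A n * theta q δ (n - m)) t =
      poly q s A t - ((1 / δ : ℝ) : ℂ) * ∫ r in (0:ℝ)..δ, E q (-m) r * poly q s A (t + r) := by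
    intro t
    rw [avg_poly, sub_sub_cancel]
    unfold poly
    by_cases hm : m ∈ s
    · rw [← Finset.add_sum_erase s _ hm]
      simp only [sub_self, theta_zero q hδ, mul_zero, zero_mul, zero_add]
    · rw [Finset.erase_eq_of_notMem hm]
  have h1 := avg_est (h := poly q s A) (poly_cont _ _ _)
    (k := poly q (s.erase m) (fun n => A n * theta q δ (n - m))) (poly_cont _ _ _) hδ hδT hk
  have h2 := hB (s.erase m) hs' (fun n => A n * theta q δ (n - m))
  have hTδ : T - δ = T' := by rw [hδ']; ring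
  rw [hTδ] at h1
  have h3 : κ ^ 2 * ∑ n ∈ s.erase m, ‖A n‖ ^ 2 ≤
      ∑ n ∈ s.erase m, ‖A n * theta q δ (n - m)‖ ^ 2 := by
    rw [Finset.mul_sum]
    apply Finset.sum_le_sum
    intro n hn
    rw [Finset.mem_erase] at hn
    rw [norm_mul, mul_pow, mul_comm]
    apply mul_le_mul_of_nonneg_left _ (by positivity)
    exact pow_le_pow_left₀ hκ.le (theta_lower hq hδ (sub_ne_zero.2 hn.1)) 2
  have h4 : ∑ n ∈ s.erase m, ‖A n‖ ^ 2 ≤ C1 * I := by
    have h5 : κ ^ 2 * ∑ n ∈ s.erase m, ‖A n‖ ^ 2 ≤ C * ((2 + 2 * T / δ) * I) := by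
      refine le_trans h3 (le_trans h2 ?_)
      exact mul_le_mul_of_nonneg_left h1 hC.le
    rw [hC1', div_mul_eq_mul_div, le_div_iff₀ (by positivity)]
    linarith
  by_cases hm : m ∈ s
  · rw [← Finset.add_sum_erase s _ hm]
    have h5 : T * ‖A m‖ ^ 2 ≤ (2 + 2 * L * C1) * I := by
      have h6 : T * ‖A m‖ ^ 2 = ∫ t in (0:ℝ)..T, ‖A m * E q m t‖ ^ 2 := by
        simp only [norm_mul, E_norm, mul_one]
        rw [intervalIntegral.integral_const]
        simp
      have h7 : ∫ t in (0:ℝ)..T, ‖A m * E q m t‖ ^ 2 ≤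
          ∫ t in (0:ℝ)..T, (2 * ‖poly q s A t‖ ^ 2 + 2 * ‖poly q (s.erase m) A t‖ ^ 2) := by
        apply intervalIntegral.integral_mono_on hT.le
        · apply Continuous.intervalIntegrable; fun_prop
        · apply Continuous.intervalIntegrable; fun_prop
        · intro t _
          have h8 : A m * E q m t = poly q s A t - poly q (s.erase m) A t := by
            unfold poly
            rw [← Finset.add_sum_erase s _ hm]
            ring
          rw [h8]
          have h9 := norm_sub_le (poly q s A t) (poly q (s.erase m) A t)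
          have h10 := pow_le_pow_left₀ (norm_nonneg _) h9 2
          nlinarith [sq_nonneg (‖poly q s A t‖ - ‖poly q (s.erase m) A t‖)]
      have h8 : ∫ t in (0:ℝ)..T, (2 * ‖poly q s A t‖ ^ 2 + 2 * ‖poly q (s.erase m) A t‖ ^ 2) =
          2 * I + 2 * ∫ t in (0:ℝ)..T, ‖poly q (s.erase m) A t‖ ^ 2 := by
        rw [intervalIntegral.integral_add, intervalIntegral.integral_const_mul,
          intervalIntegral.integral_const_mul]
        · apply Continuous.intervalIntegrable; fun_prop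
        · apply Continuous.intervalIntegrable; fun_prop
      have h9 := hdir (s.erase m) A
      have h10 : L * ∑ n ∈ s.erase m, ‖A n‖ ^ 2 ≤ L * (C1 * I) :=
        mul_le_mul_of_nonneg_left h4 hL.le
      rw [h6]
      linarith
    have h6 : ‖A m‖ ^ 2 ≤ (2 + 2 * L * C1) / T * I := by
      rw [div_mul_eq_mul_div, le_div_iff₀ hT]
      linarith
    linarith
  · rw [Finset.erase_eq_of_notMem hm] at h4
    have h5 : 0 ≤ (2 + 2 * L * C1) / T * I := by positivity
    linarith

theorem obs_union {q : ℤ} (hq : 0 < q) {B : Set ℤ} {T' : ℝ} (hT' : 0 < T') (h : Obs q B T')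
    (F : Finset ℤ) : ∀ T, T' < T → Obs q (B ∪ F) T := by
  classical
  induction F using Finset.induction_on with
  | empty =>
    intro T hT
    obtain ⟨C, hC, hB⟩ := h
    refine ⟨C, hC, ?_⟩
    intro s hs A
    refine le_trans (hB s (fun n hn => by simpa using hs n hn) A) ?_
    apply mul_le_mul_of_nonneg_left _ hC.le
    apply intervalIntegral.integral_mono_interval le_rfl hT'.le hT.le
    · exact Filter.Eventually.of_forall (fun t => by positivity)
    · apply Continuous.intervalIntegrable; fun_prop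
  | insert m F _ ih =>
    intro T hT
    have h1 := ih ((T' + T) / 2) (by linarith)
    have h2 := obs_insert hq m (by linarith) (show (T' + T) / 2 < T by linarith) h1
    have h3 : B ∪ ((insert m F : Finset ℤ) : Set ℤ) = insert m (B ∪ (F : Set ℤ)) := by
      rw [Finset.coe_insert, Set.union_insert]
    rw [h3]
    exact h2

theorem obs_linear {q : ℤ} (hq : 0 < q) {B : Set ℤ} {T' T : ℝ} (hT' : 0 < T')
    (hTT : T' < T) (h : Obs q B T') : ∃ C : ℝ, 0 < C ∧ ∀ s : Finset ℤ, (∀ n ∈ s, n ∈ B) →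
      (0:ℤ) ∈ s → ∀ (A : ℤ → ℂ) (β : ℂ), ∑ n ∈ s, ‖A n‖ ^ 2 + ‖β‖ ^ 2 ≤
        C * ∫ t in (0:ℝ)..T, ‖poly q s A t + β * t‖ ^ 2 := by
  classical
  obtain ⟨C, hC, hB⟩ := h
  have hT : 0 < T := by linarith
  have hqr : (0:ℝ) < q := by exact_mod_cast hq
  have hpi := Real.pi_pos
  set δ := T - T' with hδ'
  have hδ : 0 < δ := by linarith
  have hδT : δ ≤ T := by linarith
  set κ := min (1 / 2) (2 / Real.pi ^ 2 * (δ / q)) with hκ'
  have hκ : 0 < κ := lt_min (by norm_num) (by positivity)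
  obtain ⟨L, hL, hdir⟩ := direct hq T hT
  set C0 := C * (2 + 2 * T / δ) with hC0'
  have hC0 : 0 < C0 := by positivity
  set C1 := C0 / κ ^ 2 with hC1'
  have hC1 : 0 < C1 := by positivity
  set C2 := C0 * 4 / δ ^ 2 with hC2'
  have hC2 : 0 < C2 := by positivity
  refine ⟨C1 + C2 + (3 + 3 * L * C1 + 3 * T ^ 3 * C2) / T, by positivity, ?_⟩
  intro s hs h0 A β
  set I := ∫ t in (0:ℝ)..T, ‖poly q s A t + β * t‖ ^ 2 with hI
  have hI0 : 0 ≤ I := intervalIntegral.integral_nonneg hT.le (fun _ _ => by positivity)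
  let A' : ℤ → ℂ := fun n => if n = 0 then -(β * (δ / 2 : ℝ)) else A n * theta q δ n
  have hk : ∀ t, poly q s A' t = (poly q s A t + β * t) -
      ((1 / δ : ℝ) : ℂ) * ∫ r in (0:ℝ)..δ, E q (-0) r * (poly q s A (t + r) + β * ((t + r : ℝ) : ℂ))
      := by
    intro t
    have h1 : ∫ r in (0:ℝ)..δ, E q (-0) r * (poly q s A (t + r) + β * ((t + r : ℝ) : ℂ)) =
        (∫ r in (0:ℝ)..δ, E q (-0) r * poly q s A (t + r)) + β * (t * δ + δ ^ 2 / 2) := by
      have h2 : ∀ r : ℝ, E q (-0) r * (poly q s A (t + r) + β * ((t + r : ℝ) : ℂ)) =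
          E q (-0) r * poly q s A (t + r) + β * ((t + r : ℝ) : ℂ) := by
        intro r
        rw [neg_zero, E_zero]; ring
      simp only [h2]
      rw [intervalIntegral.integral_add]
      · congr 1
        rw [intervalIntegral.integral_const_mul, intervalIntegral.integral_ofReal]
        congr 1
        have h3 : ∫ r in (0:ℝ)..δ, (t + r) = t * δ + δ ^ 2 / 2 := by
          rw [intervalIntegral.integral_add, intervalIntegral.integral_const, integral_id]
          · simp; ring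
          · apply Continuous.intervalIntegrable; fun_prop
          · apply Continuous.intervalIntegrable; fun_prop
        rw [h3]
        push_cast
        ring
      · apply Continuous.intervalIntegrable; fun_prop
      · apply Continuous.intervalIntegrable; fun_prop
    rw [h1, mul_add, avg_poly]
    have hδc : (δ : ℂ) ≠ 0 := by exact_mod_cast hδ.ne'
    have h4 : poly q s A' t = poly q s (fun n => A n * theta q δ (n - 0)) t
        - β * (δ / 2 : ℝ) := by
      unfold poly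
      rw [← Finset.add_sum_erase s _ h0, ← Finset.add_sum_erase s
        (fun n => (fun n => A n * theta q δ (n - 0)) n * E q n t) h0]
      simp only [A', if_true, sub_zero, theta_zero q hδ, E_zero]
      have h5 : ∀ n ∈ s.erase 0, (if n = 0 then -(β * ((δ / 2 : ℝ) : ℂ)) else
          A n * theta q δ n) * E q n t = A n * theta q δ n * E q n t := by
        intro n hn
        rw [if_neg (Finset.ne_of_mem_erase hn)]
      rw [Finset.sum_congr rfl h5]
      ring
    rw [h4]
    push_cast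
    field_simp
    ring
  have h1 := avg_est (h := fun t => poly q s A t + β * (t : ℂ)) (by fun_prop)
    (k := poly q s A') (poly_cont _ _ _) hδ hδT (q := q) (m := 0) hk
  have h2 := hB s hs A'
  have hTδ : T - δ = T' := by rw [hδ']; ring
  rw [hTδ] at h1
  have h3 : ∑ n ∈ s, ‖A' n‖ ^ 2 ≤ C0 * I := by
    refine le_trans h2 ?_
    rw [hC0', mul_assoc]
    exact mul_le_mul_of_nonneg_left h1 hC.le
  rw [← Finset.add_sum_erase s _ h0] at h3
  have h4 : ‖A' 0‖ ^ 2 = ‖β‖ ^ 2 * (δ ^ 2 / 4) := by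
    simp only [A', if_true]
    rw [norm_neg, norm_mul, Complex.norm_real, Real.norm_eq_abs, abs_of_pos (by positivity)]
    ring
  have h5 : κ ^ 2 * ∑ n ∈ s.erase 0, ‖A n‖ ^ 2 ≤ ∑ n ∈ s.erase 0, ‖A' n‖ ^ 2 := by
    rw [Finset.mul_sum]
    apply Finset.sum_le_sum
    intro n hn
    rw [Finset.mem_erase] at hn
    simp only [A', if_neg hn.1]
    rw [norm_mul, mul_pow, mul_comm]
    apply mul_le_mul_of_nonneg_left _ (by positivity)
    exact pow_le_pow_left₀ hκ.le (theta_lower hq hδ hn.1) 2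
  have h6 : 0 ≤ ∑ n ∈ s.erase 0, ‖A n‖ ^ 2 := Finset.sum_nonneg (fun _ _ => by positivity)
  have h7 : ∑ n ∈ s.erase 0, ‖A n‖ ^ 2 ≤ C1 * I := by
    rw [hC1', div_mul_eq_mul_div, le_div_iff₀ (by positivity)]
    have : 0 ≤ ‖β‖ ^ 2 * (δ ^ 2 / 4) := by positivity
    rw [h4] at h3
    linarith
  have h8 : ‖β‖ ^ 2 ≤ C2 * I := by
    rw [hC2', div_mul_eq_mul_div, le_div_iff₀ (by positivity)]
    rw [h4] at h3
    have : 0 ≤ κ ^ 2 * ∑ n ∈ s.erase 0, ‖A n‖ ^ 2 := by positivity
    linarith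
  rw [← Finset.add_sum_erase s _ h0]
  have h9 : T * ‖A 0‖ ^ 2 ≤ (3 + 3 * L * C1 + 3 * T ^ 3 * C2) * I := by
    have e1 : T * ‖A 0‖ ^ 2 = ∫ t in (0:ℝ)..T, ‖A 0‖ ^ 2 := by
      rw [intervalIntegral.integral_const]
      simp
    have e2 : ∫ t in (0:ℝ)..T, ‖A 0‖ ^ 2 ≤
        ∫ t in (0:ℝ)..T, (3 * ‖poly q s A t + β * t‖ ^ 2 + 3 * ‖poly q (s.erase 0) A t‖ ^ 2 +
          3 * (‖β‖ ^ 2 * T ^ 2)) := by
      apply intervalIntegral.integral_mono_on hT.le
      · apply Continuous.intervalIntegrable; fun_prop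
      · apply Continuous.intervalIntegrable; fun_prop
      · intro t ht
        have e3 : A 0 = (poly q s A t + β * t) - poly q (s.erase 0) A t - β * t := by
          unfold poly
          rw [← Finset.add_sum_erase s _ h0, E_zero]
          ring
        have e4 : ‖A 0‖ ≤ ‖poly q s A t + β * t‖ + ‖poly q (s.erase 0) A t‖ + ‖β‖ * T := by
          calc ‖A 0‖ = ‖(poly q s A t + β * t) - poly q (s.erase 0) A t - β * t‖ := by rw [← e3]
            _ ≤ ‖(poly q s A t + β * t) - poly q (s.erase 0) A t‖ + ‖β * t‖ := norm_sub_le _ _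
            _ ≤ ‖poly q s A t + β * t‖ + ‖poly q (s.erase 0) A t‖ + ‖β * t‖ := by
                linarith [norm_sub_le (poly q s A t + β * t) (poly q (s.erase 0) A t)]
            _ ≤ _ := by
                rw [norm_mul, Complex.norm_real, Real.norm_eq_abs, abs_of_nonneg ht.1]
                have := mul_le_mul_of_nonneg_left ht.2 (norm_nonneg β)
                linarith
        have e5 := pow_le_pow_left₀ (norm_nonneg _) e4 2
        set x := ‖poly q s A t + β * t‖
        set y := ‖poly q (s.erase 0) A t‖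
        set z := ‖β‖ * T
        have e6 : ‖β‖ ^ 2 * T ^ 2 = z ^ 2 := by simp only [z]; ring
        rw [e6]
        nlinarith [sq_nonneg (x - y), sq_nonneg (y - z), sq_nonneg (x - z)]
    have e3 : ∫ t in (0:ℝ)..T, (3 * ‖poly q s A t + β * t‖ ^ 2 +
        3 * ‖poly q (s.erase 0) A t‖ ^ 2 + 3 * (‖β‖ ^ 2 * T ^ 2)) =
        3 * I + 3 * (∫ t in (0:ℝ)..T, ‖poly q (s.erase 0) A t‖ ^ 2) +
          T * (3 * (‖β‖ ^ 2 * T ^ 2)) := by
      rw [intervalIntegral.integral_add, intervalIntegral.integral_add,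
        intervalIntegral.integral_const_mul, intervalIntegral.integral_const_mul,
        intervalIntegral.integral_const]
      · simp only [sub_zero, smul_eq_mul, hI]
      · apply Continuous.intervalIntegrable; fun_prop
      · apply Continuous.intervalIntegrable; fun_prop
      · apply Continuous.intervalIntegrable; fun_prop
      · apply Continuous.intervalIntegrable; fun_prop
    have e4 := hdir (s.erase 0) A
    have e5 : L * ∑ n ∈ s.erase 0, ‖A n‖ ^ 2 ≤ L * (C1 * I) := mul_le_mul_of_nonneg_left h7 hL.le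
    have e6 : T ^ 3 * ‖β‖ ^ 2 ≤ T ^ 3 * (C2 * I) := mul_le_mul_of_nonneg_left h8 (by positivity)
    have e7 : T * (3 * (‖β‖ ^ 2 * T ^ 2)) = 3 * (T ^ 3 * ‖β‖ ^ 2) := by ring
    rw [e1]
    linarith
  have h10 : ‖A 0‖ ^ 2 ≤ (3 + 3 * L * C1 + 3 * T ^ 3 * C2) / T * I := by
    rw [div_mul_eq_mul_div, le_div_iff₀ hT]
    linarith
  linarith

end Pool.Agent.V1185.Beam
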